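import Pool.Agent.Lib.MP_ae5b4e_an_A2.Peak

/-!
# MP_ae5b4e_an, STEP A, block A2: contact points

`Contact v C B r g p`: `v` has at the real point `g` a majorant with slope `p` along the real axis, a
term `C |Im z|` and a quadratic term. There are uncountably many such points in every interval, with
constants which depend only on the interval and on a bound for `v`.
-/

set_option autoImplicit false

noncomputable section

namespace Pool.Agent.MP_ae5b4e_an_A2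

open Complex Set Filter Topology Metric InnerProductSpace
open Pool.Agent.Lib.MP_ae5b4e_an_LL (SubH)
open Pool.Agent.MP_ae5b4e_an_N4 (subH_conj)
open scoped ComplexConjugate

/-- contact point with slope `p` -/
def Contact (v : ℂ → ℝ) (C B r g p : ℝ) : Prop :=
  |p| ≤ C ∧ ∀ z : ℂ, ‖z‖ ≤ r → v (g + z) ≤ v g + p * z.re + C * |z.im| + B * ‖z‖ ^ 2

/-- a maximum point of `v x - B₀ (x - x₀)²` -/
theorem exists_touch {v : ℂ → ℝ} (hv : SubH v univ) (h0 : ∀ z, 0 ≤ v z) {a b M ℓ x₀ : ℝ}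
    (hℓ : 0 < ℓ) (hM : ∀ x ∈ Icc a b, v (x:ℂ) ≤ M) (hx₀ : x₀ ∈ Icc (a + 2 * ℓ) (b - 2 * ℓ)) :
    ∃ g ∈ Icc (x₀ - ℓ) (x₀ + ℓ), ∀ x ∈ Icc a b,
      v (x:ℂ) - (M + 1) / ℓ ^ 2 * (x - x₀) ^ 2 ≤ v (g:ℂ) - (M + 1) / ℓ ^ 2 * (g - x₀) ^ 2 := by
  have hx : x₀ ∈ Icc (x₀ - ℓ) (x₀ + ℓ) := ⟨by linarith, by linarith⟩
  have hK : IsCompact ((fun x : ℝ => (x:ℂ)) '' Icc (x₀ - ℓ) (x₀ + ℓ)) :=
    isCompact_Icc.image Complex.continuous_ofReal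
  have hus : UpperSemicontinuousOn (fun z : ℂ => v z + -((M + 1) / ℓ ^ 2 * (z.re - x₀) ^ 2))
      ((fun x : ℝ => (x:ℂ)) '' Icc (x₀ - ℓ) (x₀ + ℓ)) := by
    refine (hv.usc.mono (subset_univ _)).add ?_
    apply ContinuousOn.upperSemicontinuousOn
    have := Complex.continuous_re
    fun_prop
  have hne : ((fun x : ℝ => (x:ℂ)) '' Icc (x₀ - ℓ) (x₀ + ℓ)).Nonempty := ⟨_, mem_image_of_mem _ hx⟩
  obtain ⟨w, ⟨g, hg, rfl⟩, hmax⟩ := hus.exists_isMaxOn hne hK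
  refine ⟨g, hg, fun x hxab => ?_⟩
  have hmx : ∀ y ∈ Icc (x₀ - ℓ) (x₀ + ℓ),
      v (y:ℂ) - (M + 1) / ℓ ^ 2 * (y - x₀) ^ 2 ≤ v (g:ℂ) - (M + 1) / ℓ ^ 2 * (g - x₀) ^ 2 := by
    intro y hy
    have h1 := hmax (show (y:ℂ) ∈ (fun x : ℝ => (x:ℂ)) '' Icc (x₀ - ℓ) (x₀ + ℓ) from ⟨y, hy, rfl⟩)
    simp only [mem_setOf_eq, ofReal_re] at h1
    linarith
  by_cases hxI : x ∈ Icc (x₀ - ℓ) (x₀ + ℓ)
  · exact hmx x hxI
  · have h2 := hmx x₀ hx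
    rw [sub_self] at h2
    have h3 : ℓ ^ 2 ≤ (x - x₀) ^ 2 := by
      have h4 : ℓ ≤ |x - x₀| := by
        by_contra hcon
        push Not at hcon
        have := abs_lt.1 hcon
        exact hxI ⟨by linarith, by linarith⟩
      rw [← sq_abs (x - x₀)]
      exact pow_le_pow_left₀ hℓ.le h4 2
    have h5 : v (x:ℂ) ≤ M := hM x hxab
    have h6 : 0 ≤ M := (h0 _).trans h5
    have h7 : M + 1 ≤ (M + 1) / ℓ ^ 2 * (x - x₀) ^ 2 := by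
      rw [div_mul_eq_mul_div, le_div_iff₀ (by positivity)]
      exact mul_le_mul_of_nonneg_left h3 (by linarith)
    have h8 := h0 (x₀:ℂ)
    nlinarith

/-- uncountably many contact points -/
theorem contact_unc {a b M δ : ℝ} (hab : a < b) (hM0 : 0 ≤ M) (hδ : 0 < δ) :
    ∃ C B r : ℝ, 0 < C ∧ 0 < B ∧ 0 < r ∧ r ≤ δ ∧ ∀ v : ℂ → ℝ, SubH v univ → (∀ z, 0 ≤ v z) →
      (∀ x ∈ Icc a b, ∀ z : ℂ, ‖z‖ ≤ δ → v (x + z) ≤ M) →
      ¬ {g : ℝ | g ∈ Ioo a b ∧ ∃ p, Contact v C B r g p}.Countable := by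
  obtain ⟨ℓ, hℓ⟩ : ∃ ℓ : ℝ, ℓ = min δ ((b - a) / 8) := ⟨_, rfl⟩
  have hℓ0 : 0 < ℓ := by rw [hℓ]; exact lt_min hδ (by linarith)
  have hℓδ : ℓ ≤ δ := by rw [hℓ]; exact min_le_left _ _
  have hℓb : ℓ ≤ (b - a) / 8 := by rw [hℓ]; exact min_le_right _ _
  obtain ⟨B₀, hB₀⟩ : ∃ B₀ : ℝ, B₀ = (M + 1) / ℓ ^ 2 := ⟨_, rfl⟩
  have hB₀p : 0 < B₀ := by rw [hB₀]; positivity
  obtain ⟨B, hB⟩ : ∃ B : ℝ, B = 3 * B₀ + M / ℓ ^ 2 := ⟨_, rfl⟩
  have hBB : B₀ ≤ B := by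
    rw [hB]
    have : 0 ≤ M / ℓ ^ 2 := by positivity
    linarith
  have hBp : 0 < B := hB₀p.trans_le hBB
  refine ⟨2 * B * ℓ, B, ℓ, by positivity, hBp, hℓ0, hℓδ, fun v hv h0 hvM hcount => ?_⟩
  have hvM' : ∀ x ∈ Icc a b, v (x:ℂ) ≤ M := fun x hx => by
    have := hvM x hx 0 (by simpa using hδ.le)
    simpa using this
  -- the choice of the touching points
  have hch : ∀ x₀ : ℝ, ∃ g : ℝ, x₀ ∈ Icc (a + 2 * ℓ) (b - 2 * ℓ) →
      g ∈ Icc (x₀ - ℓ) (x₀ + ℓ) ∧ ∀ x ∈ Icc a b,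
        v (x:ℂ) - B₀ * (x - x₀) ^ 2 ≤ v (g:ℂ) - B₀ * (g - x₀) ^ 2 := by
    intro x₀
    by_cases hx₀ : x₀ ∈ Icc (a + 2 * ℓ) (b - 2 * ℓ)
    · obtain ⟨g, hg1, hg2⟩ := exists_touch hv h0 hℓ0 hvM' hx₀
      rw [← hB₀] at hg2
      exact ⟨g, fun _ => ⟨hg1, hg2⟩⟩
    · exact ⟨0, fun h => absurd h hx₀⟩
  choose G hG using hch
  -- the parabola at `G x₀`
  have hpar : ∀ x₀ ∈ Icc (a + 2 * ℓ) (b - 2 * ℓ), ∀ x : ℝ, |x| ≤ ℓ →
      v ((G x₀ : ℂ) + x) ≤ v (G x₀) + 2 * B₀ * (G x₀ - x₀) * x + B₀ * x ^ 2 := by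
    intro x₀ hx₀ x hx
    obtain ⟨hg1, hg2⟩ := hG x₀ hx₀
    have h1 := abs_le.1 hx
    have h2 := hg2 (G x₀ + x) ⟨by linarith [hx₀.1, hg1.1], by linarith [hx₀.2, hg1.2]⟩
    push_cast at h2
    nlinarith
  have hMr : ∀ x₀ ∈ Icc (a + 2 * ℓ) (b - 2 * ℓ), ∀ z : ℂ, ‖z‖ ≤ ℓ → v ((G x₀ : ℂ) + z) ≤ M := by
    intro x₀ hx₀ z hz
    obtain ⟨hg1, hg2⟩ := hG x₀ hx₀
    exact hvM (G x₀) ⟨by linarith [hx₀.1, hg1.1], by linarith [hx₀.2, hg1.2]⟩ z (hz.trans hℓδ)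
  have hmaps : MapsTo G (Icc (a + 2 * ℓ) (b - 2 * ℓ))
      {g : ℝ | g ∈ Ioo a b ∧ ∃ p, Contact v (2 * B * ℓ) B ℓ g p} := by
    intro x₀ hx₀
    obtain ⟨hg1, hg2⟩ := hG x₀ hx₀
    refine ⟨⟨by linarith [hx₀.1, hg1.1], by linarith [hx₀.2, hg1.2]⟩,
      2 * B₀ * (G x₀ - x₀), ?_, ?_⟩
    · rw [abs_mul, abs_of_pos (by positivity : 0 < 2 * B₀)]
      have h1 : |G x₀ - x₀| ≤ ℓ := by
        rw [abs_le]; exact ⟨by linarith [hg1.1], by linarith [hg1.2]⟩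
      have h2 := mul_le_mul_of_nonneg_left h1 (by positivity : 0 ≤ 2 * B₀)
      have h3 : 2 * B₀ * ℓ ≤ 2 * B * ℓ := by nlinarith
      linarith
    · intro z hz
      obtain ⟨p, hp⟩ : ∃ p : ℝ, p = 2 * B₀ * (G x₀ - x₀) := ⟨_, rfl⟩
      rw [← hp]
      have hpa : |p| ≤ 2 * B₀ * ℓ := by
        rw [hp, abs_mul, abs_of_pos (by positivity : 0 < 2 * B₀)]
        apply mul_le_mul_of_nonneg_left _ (by positivity)
        rw [abs_le]; exact ⟨by linarith [hg1.1], by linarith [hg1.2]⟩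
      have h1 := quad_le (v := fun z => v (G x₀ + z)) (subH_add hv _) (r := ℓ) (M := M)
        (a := v (G x₀)) (p := p) (B := B₀) hℓ0 (h0 _) (hMr x₀ hx₀) hM0 hB₀p.le
        (fun x hx => by rw [hp]; exact hpar x₀ hx₀ x hx) z hz
      obtain ⟨B₁, hB₁⟩ : ∃ B₁ : ℝ, B₁ = B₀ + (M + |p| * ℓ) / ℓ ^ 2 := ⟨_, rfl⟩
      rw [← hB₁] at h1
      have h2 : B₁ ≤ B := by
        rw [hB₁, hB, add_div]
        have h3 : |p| * ℓ / ℓ ^ 2 ≤ 2 * B₀ := by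
          rw [div_le_iff₀ (by positivity)]
          nlinarith
        linarith
      have h20 : 0 ≤ B₁ := by rw [hB₁]; positivity
      have h4 : B₁ * (z.re ^ 2 - z.im ^ 2) ≤ B * ‖z‖ ^ 2 := by
        have h5 : z.re ^ 2 + z.im ^ 2 = ‖z‖ ^ 2 := by
          rw [← Complex.normSq_eq_norm_sq, Complex.normSq_apply]
          ring
        have h6 : z.re ^ 2 - z.im ^ 2 ≤ ‖z‖ ^ 2 := by
          rw [← h5]; nlinarith [sq_nonneg z.im]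
        exact (mul_le_mul_of_nonneg_left h6 h20).trans
          (mul_le_mul_of_nonneg_right h2 (sq_nonneg _))
      have h7 : 2 * B₁ * ℓ * |z.im| ≤ 2 * B * ℓ * |z.im| := by
        apply mul_le_mul_of_nonneg_right _ (abs_nonneg _)
        nlinarith
      linarith
  have hinj : InjOn G (Icc (a + 2 * ℓ) (b - 2 * ℓ)) := by
    -- two centres with the same touching point give a concave corner
    have hlt : ∀ x₀ ∈ Icc (a + 2 * ℓ) (b - 2 * ℓ), ∀ x₁ ∈ Icc (a + 2 * ℓ) (b - 2 * ℓ),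
        x₀ < x₁ → G x₀ = G x₁ → False := by
      intro x₀ hx₀ x₁ hx₁ hl he
      have e0 := hpar x₀ hx₀
      have e1 := hpar x₁ hx₁
      rw [← he] at e1
      refine no_peak (v := fun z => v (G x₀ + z)) (subH_add hv _) (r := ℓ) (M := M)
        (p := B₀ * (G x₀ - x₀) + B₀ * (G x₀ - x₁)) (B := B₀) (κ := B₀ * (x₁ - x₀)) hℓ0 (h0 _)
        (hMr x₀ hx₀) hM0 hB₀p.le (mul_pos hB₀p (by linarith)) ?_
      intro x hx
      beta_reduce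
      rw [add_zero]
      rcases le_total 0 x with h | h
      · rw [abs_of_nonneg h]
        have := e1 x hx
        nlinarith
      · rw [abs_of_nonpos h]
        have := e0 x hx
        nlinarith
    intro x₀ hx₀ x₁ hx₁ he
    rcases lt_trichotomy x₀ x₁ with h | h | h
    · exact (hlt x₀ hx₀ x₁ hx₁ h he).elim
    · exact h
    · exact (hlt x₁ hx₁ x₀ hx₀ h he.symm).elim
  have hc : (Icc (a + 2 * ℓ) (b - 2 * ℓ)).Countable := hmaps.countable_of_injOn hinj hcount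
  have h1 := Cardinal.mk_Icc_real (a := a + 2 * ℓ) (b := b - 2 * ℓ) (by linarith)
  have h2 := hc.le_aleph0
  rw [h1] at h2
  exact absurd h2 (not_le.2 Cardinal.aleph0_lt_continuum)

end Pool.Agent.MP_ae5b4e_an_A2
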