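import Pool.Agent.Lib.MP_ae5b4e_an_N4.Mpx

/-!
# MP_ae5b4e_an, STEP A, block A2: majorants on half discs

`v` is subharmonic on the plane. A parabola which touches `v` from above along the real axis gives a
quadratic majorant with a linear term `C |Im z|` on a disc (`quad_le`); a concave corner along the
real axis is impossible (`no_peak`).
-/

set_option autoImplicit false

noncomputable section

namespace Pool.Agent.MP_ae5b4e_an_A2

open Complex Set Filter Topology Metric InnerProductSpace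
open Pool.Agent.Lib.MP_ae5b4e_an_LL (SubH)
open Pool.Agent.MP_ae5b4e_an_N4 (subH_conj)
open scoped ComplexConjugate

/-- translation of a subharmonic function -/
theorem subH_add {v : ℂ → ℝ} (hv : SubH v univ) (a : ℂ) : SubH (fun z => v (a + z)) univ := by
  refine ⟨fun z _ y hy => ?_, fun c _ => ?_⟩
  · have h1 : Tendsto (fun z : ℂ => a + z) (𝓝[univ] z) (𝓝[univ] (a + z)) := by
      rw [nhdsWithin_univ, nhdsWithin_univ]
      exact (continuous_const.add continuous_id).tendsto z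
    exact h1.eventually (hv.usc (a + z) (mem_univ _) y hy)
  · filter_upwards [hv.mean (a + c) (mem_univ _)] with r h1 g hg1 hg2
    have hsp : ∀ z ∈ sphere (a + c) r, z - a ∈ sphere c r := by
      intro z hz
      rw [mem_sphere, dist_eq_norm] at hz ⊢
      rw [← hz]
      congr 1
      ring
    have h2 := h1 (fun z => g (z - a))
      (hg1.comp (continuous_id.sub continuous_const).continuousOn hsp) (fun z hz => by
        have h3 := hg2 (z - a) (hsp z hz)
        rwa [add_sub_cancel] at h3)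
    have h4 : Real.circleAverage (fun z => g (z - a)) (a + c) r = Real.circleAverage g c r := by
      rw [Real.circleAverage_def, Real.circleAverage_def]
      congr 1
      apply intervalIntegral.integral_congr
      intro θ _
      simp only [circleMap]
      congr 1
      ring
    rwa [h4] at h2

/-- comparison on a closed upper half disc -/
theorem up_le {v : ℂ → ℝ} (hv : SubH v univ) {r : ℝ} {h : ℂ → ℝ}
    (hh : HarmonicOnNhd h {z | ‖z‖ < r ∧ 0 < z.im})
    (hc : ContinuousOn h {z | ‖z‖ ≤ r ∧ 0 ≤ z.im})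
    (h1 : ∀ x : ℝ, |x| ≤ r → v x ≤ h x)
    (h2 : ∀ z : ℂ, ‖z‖ = r → 0 ≤ z.im → v z ≤ h z) :
    ∀ z : ℂ, ‖z‖ ≤ r → 0 ≤ z.im → v z ≤ h z := by
  have hK : IsCompact {z : ℂ | ‖z‖ ≤ r ∧ 0 ≤ z.im} := by
    have e1 : {z : ℂ | ‖z‖ ≤ r ∧ 0 ≤ z.im} = closedBall (0:ℂ) r ∩ {z | 0 ≤ z.im} := by
      ext z; simp
    rw [e1]
    exact (isCompact_closedBall _ _).inter_right (isClosed_le continuous_const continuous_im)
  have hV : IsOpen {z : ℂ | ‖z‖ < r ∧ 0 < z.im} :=
    (isOpen_lt continuous_norm continuous_const).inter (isOpen_lt continuous_const continuous_im)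
  have key := (hv.mono (subset_univ {z : ℂ | ‖z‖ < r ∧ 0 < z.im})).le_harmonic_of_compact hK hV
    (fun z hz => ⟨hz.1.le, hz.2.le⟩) (hv.usc.mono (subset_univ _)) hh hc ?_
  · exact fun z hz1 hz2 => key z ⟨hz1, hz2⟩
  · rintro z ⟨hz1, hz2⟩ hz3
    by_cases hz4 : ‖z‖ = r
    · exact h2 z hz4 hz2
    · have hz5 : ¬ 0 < z.im := fun h => hz3 ⟨lt_of_le_of_ne hz1 hz4, h⟩
      have hz6 : z.im = 0 := le_antisymm (not_lt.1 hz5) hz2
      have hz7 : z = (z.re : ℂ) := by
        apply Complex.ext <;> simp [hz6]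
      rw [hz7]
      apply h1
      rw [hz7] at hz1
      simpa using hz1

theorem harm_re {A : ℂ → ℂ} {S : Set ℂ} (hA : ∀ z ∈ S, AnalyticAt ℂ A z) :
    HarmonicOnNhd (fun z => (A z).re) S := fun z hz => (hA z hz).harmonicAt_re

/-- a parabola above `v` on the real axis gives a majorant in the upper half disc -/
theorem quad_up {v : ℂ → ℝ} (hv : SubH v univ) {r M a p B : ℝ} (hr : 0 < r) (ha : 0 ≤ a)
    (hM : ∀ z : ℂ, ‖z‖ ≤ r → v z ≤ M) (hM0 : 0 ≤ M) (hB : 0 ≤ B)
    (h1 : ∀ x : ℝ, |x| ≤ r → v x ≤ a + p * x + B * x ^ 2) :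
    ∀ z : ℂ, ‖z‖ ≤ r → 0 ≤ z.im →
      v z ≤ a + p * z.re + (B + (M + |p| * r) / r ^ 2) * (z.re ^ 2 - z.im ^ 2) +
        2 * (B + (M + |p| * r) / r ^ 2) * r * z.im := by
  obtain ⟨B', hB'⟩ : ∃ B' : ℝ, B' = B + (M + |p| * r) / r ^ 2 := ⟨_, rfl⟩
  rw [← hB']
  have hp : 0 ≤ |p| := abs_nonneg p
  have hr2 : 0 < r ^ 2 := by positivity
  have hBB : B ≤ B' := by
    rw [hB']
    have : 0 ≤ (M + |p| * r) / r ^ 2 := by positivity
    linarith
  have hBr : M + |p| * r ≤ B' * r ^ 2 := by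
    rw [hB', add_mul, div_mul_cancel₀ _ hr2.ne']
    have : 0 ≤ B * r ^ 2 := by positivity
    linarith
  have hB'0 : 0 ≤ B' := hB.trans hBB
  obtain ⟨A, hA⟩ : ∃ A : ℂ → ℂ, A = fun z => (a:ℂ) + p * z + B' * z ^ 2 - I * (2 * B' * r) * z :=
    ⟨_, rfl⟩
  have hAre : ∀ z, (A z).re = a + p * z.re + B' * (z.re ^ 2 - z.im ^ 2) + 2 * B' * r * z.im := by
    intro z
    rw [hA]
    simp [pow_two]
  have hAan : ∀ z, AnalyticAt ℂ A z := by
    intro z
    rw [hA]
    fun_prop
  have key := up_le hv (h := fun z => (A z).re) (r := r) (harm_re fun z _ => hAan z)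
    (fun z _ => ((Complex.continuous_re.continuousAt).comp
      (hAan z).continuousAt).continuousWithinAt) ?_ ?_
  · intro z hz1 hz2
    rw [← hAre]
    exact key z hz1 hz2
  · intro x hx
    beta_reduce
    rw [hAre]
    refine (h1 x hx).trans ?_
    simp only [ofReal_re, ofReal_im]
    have : B * x ^ 2 ≤ B' * x ^ 2 := mul_le_mul_of_nonneg_right hBB (sq_nonneg x)
    nlinarith
  · intro z hz1 hz2
    beta_reduce
    rw [hAre]
    refine (hM z hz1.le).trans ?_
    have h3 : z.re ^ 2 + z.im ^ 2 = r ^ 2 := by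
      rw [← hz1, ← Complex.normSq_eq_norm_sq, Complex.normSq_apply]
      ring
    have h4 : |z.re| ≤ r := by rw [← hz1]; exact Complex.abs_re_le_norm z
    have h5 : z.im ≤ r := by
      rw [← hz1]; exact (le_abs_self _).trans (Complex.abs_im_le_norm z)
    have h6 : -(|p| * r) ≤ p * z.re := by
      have h7 : |p * z.re| ≤ |p| * r := by
        rw [abs_mul]; exact mul_le_mul_of_nonneg_left h4 hp
      exact (abs_le.1 h7).1
    have h8 : 0 ≤ B' * (2 * z.im * (r - z.im)) := by
      apply mul_nonneg hB'0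
      apply mul_nonneg (by linarith) (by linarith)
    have h9 : z.re ^ 2 = r ^ 2 - z.im ^ 2 := by linarith
    rw [h9]
    nlinarith

/-- a parabola above `v` on the real axis gives a majorant in the disc -/
theorem quad_le {v : ℂ → ℝ} (hv : SubH v univ) {r M a p B : ℝ} (hr : 0 < r) (ha : 0 ≤ a)
    (hM : ∀ z : ℂ, ‖z‖ ≤ r → v z ≤ M) (hM0 : 0 ≤ M) (hB : 0 ≤ B)
    (h1 : ∀ x : ℝ, |x| ≤ r → v x ≤ a + p * x + B * x ^ 2) :
    ∀ z : ℂ, ‖z‖ ≤ r →
      v z ≤ a + p * z.re + (B + (M + |p| * r) / r ^ 2) * (z.re ^ 2 - z.im ^ 2) +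
        2 * (B + (M + |p| * r) / r ^ 2) * r * |z.im| := by
  intro z hz
  rcases le_total 0 z.im with h | h
  · rw [abs_of_nonneg h]
    exact quad_up hv hr ha hM hM0 hB h1 z hz h
  · have h2 := quad_up (v := fun z => v (conj z)) (subH_conj hv) (r := r) (M := M) (a := a) (p := p)
      (B := B) hr ha (fun z hz => hM _ (by rwa [RCLike.norm_conj])) hM0 hB
      (fun x hx => by rw [Complex.conj_ofReal]; exact h1 x hx) (conj z)
      (by rwa [RCLike.norm_conj]) (by rw [Complex.conj_im]; linarith)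
    rw [Complex.conj_conj, Complex.conj_re, Complex.conj_im] at h2
    rw [abs_of_nonpos h]
    rw [neg_sq] at h2
    exact h2

end Pool.Agent.MP_ae5b4e_an_A2
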