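import Pool.Agent.Lib.MP_ae5b4e_an_A2.Rate

/-!
# MP_ae5b4e_an, STEP A, block A2: the contact points are not a null set

If every contact point carries an analytic `T` with `Im T = - v` at the point and `- Im T ≤ v` near it
(an on-line singular point) then the set of contact points is not null: it has contact points in every
set `Gd` of full measure, uncountably many.
-/

set_option autoImplicit false

noncomputable section

namespace Pool.Agent.MP_ae5b4e_an_A2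

open Complex Set Filter Topology Metric InnerProductSpace MeasureTheory
open Pool.Agent.Lib.MP_ae5b4e_an_LL (SubH)
open Pool.Agent.MP_ae5b4e_an_N4 (subH_conj)
open scoped ComplexConjugate

/-- the touching points: `G x₀` is a contact point with the slope `2 B₀ (G x₀ - x₀)` -/
theorem exists_contact {a b M δ : ℝ} (hab : a < b) (hM0 : 0 ≤ M) (hδ : 0 < δ) :
    ∃ C B r B₀ ℓ : ℝ, 0 < C ∧ 0 < B ∧ 0 < r ∧ r ≤ δ ∧ 0 < B₀ ∧ 0 < ℓ ∧ a + 2 * ℓ < b - 2 * ℓ ∧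
      ∀ v : ℂ → ℝ, SubH v univ → (∀ z, 0 ≤ v z) →
      (∀ x ∈ Icc a b, ∀ z : ℂ, ‖z‖ ≤ δ → v (x + z) ≤ M) →
      ∃ G : ℝ → ℝ, ∀ x₀ ∈ Icc (a + 2 * ℓ) (b - 2 * ℓ), G x₀ ∈ Ioo a b ∧
        Contact v C B r (G x₀) (2 * B₀ * (G x₀ - x₀)) := by
  obtain ⟨ℓ, hℓ⟩ : ∃ ℓ : ℝ, ℓ = min δ ((b - a) / 8) := ⟨_, rfl⟩
  have hℓ0 : 0 < ℓ := by rw [hℓ]; exact lt_min hδ (by linarith)
  have hℓδ : ℓ ≤ δ := by rw [hℓ]; exact min_le_left _ _
  have hℓb : ℓ ≤ (b - a) / 8 := by rw [hℓ]; exact min_le_right _ _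
  obtain ⟨B₀, hB₀⟩ : ∃ B₀ : ℝ, B₀ = (M + 1) / ℓ ^ 2 := ⟨_, rfl⟩
  have hB₀p : 0 < B₀ := by rw [hB₀]; positivity
  obtain ⟨B, hB⟩ : ∃ B : ℝ, B = 3 * B₀ + M / ℓ ^ 2 := ⟨_, rfl⟩
  have hBB : B₀ ≤ B := by
    rw [hB]
    have : 0 ≤ M / ℓ ^ 2 := by positivity
    linarith
  have hBp : 0 < B := hB₀p.trans_le hBB
  refine ⟨2 * B * ℓ, B, ℓ, B₀, ℓ, by positivity, hBp, hℓ0, hℓδ, hB₀p, hℓ0, by linarith,
    fun v hv h0 hvM => ?_⟩
  have hvM' : ∀ x ∈ Icc a b, v (x:ℂ) ≤ M := fun x hx => by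
    have := hvM x hx 0 (by simpa using hδ.le)
    simpa using this
  -- the choice of the touching points
  have hch : ∀ x₀ : ℝ, ∃ g : ℝ, x₀ ∈ Icc (a + 2 * ℓ) (b - 2 * ℓ) →
      g ∈ Icc (x₀ - ℓ) (x₀ + ℓ) ∧ ∀ x ∈ Icc a b,
        v (x:ℂ) - B₀ * (x - x₀) ^ 2 ≤ v (g:ℂ) - B₀ * (g - x₀) ^ 2 := by
    intro x₀
    by_cases hx₀ : x₀ ∈ Icc (a + 2 * ℓ) (b - 2 * ℓ)
    · obtain ⟨g, hg1, hg2⟩ := exists_touch hv h0 hℓ0 hvM' hx₀
      rw [← hB₀] at hg2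
      exact ⟨g, fun _ => ⟨hg1, hg2⟩⟩
    · exact ⟨0, fun h => absurd h hx₀⟩
  choose G hG using hch
  -- the parabola at `G x₀`
  have hpar : ∀ x₀ ∈ Icc (a + 2 * ℓ) (b - 2 * ℓ), ∀ x : ℝ, |x| ≤ ℓ →
      v ((G x₀ : ℂ) + x) ≤ v (G x₀) + 2 * B₀ * (G x₀ - x₀) * x + B₀ * x ^ 2 := by
    intro x₀ hx₀ x hx
    obtain ⟨hg1, hg2⟩ := hG x₀ hx₀
    have h1 := abs_le.1 hx
    have h2 := hg2 (G x₀ + x) ⟨by linarith [hx₀.1, hg1.1], by linarith [hx₀.2, hg1.2]⟩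
    push_cast at h2
    nlinarith
  have hMr : ∀ x₀ ∈ Icc (a + 2 * ℓ) (b - 2 * ℓ), ∀ z : ℂ, ‖z‖ ≤ ℓ → v ((G x₀ : ℂ) + z) ≤ M := by
    intro x₀ hx₀ z hz
    obtain ⟨hg1, hg2⟩ := hG x₀ hx₀
    exact hvM (G x₀) ⟨by linarith [hx₀.1, hg1.1], by linarith [hx₀.2, hg1.2]⟩ z (hz.trans hℓδ)
  refine ⟨G, ?_⟩
  · intro x₀ hx₀
    obtain ⟨hg1, hg2⟩ := hG x₀ hx₀
    refine ⟨⟨by linarith [hx₀.1, hg1.1], by linarith [hx₀.2, hg1.2]⟩, ?_, ?_⟩
    · rw [abs_mul, abs_of_pos (by positivity : 0 < 2 * B₀)]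
      have h1 : |G x₀ - x₀| ≤ ℓ := by
        rw [abs_le]; exact ⟨by linarith [hg1.1], by linarith [hg1.2]⟩
      have h2 := mul_le_mul_of_nonneg_left h1 (by positivity : 0 ≤ 2 * B₀)
      have h3 : 2 * B₀ * ℓ ≤ 2 * B * ℓ := by nlinarith
      linarith
    · intro z hz
      obtain ⟨p, hp⟩ : ∃ p : ℝ, p = 2 * B₀ * (G x₀ - x₀) := ⟨_, rfl⟩
      rw [← hp]
      have hpa : |p| ≤ 2 * B₀ * ℓ := by
        rw [hp, abs_mul, abs_of_pos (by positivity : 0 < 2 * B₀)]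
        apply mul_le_mul_of_nonneg_left _ (by positivity)
        rw [abs_le]; exact ⟨by linarith [hg1.1], by linarith [hg1.2]⟩
      have h1 := quad_le (v := fun z => v (G x₀ + z)) (subH_add hv _) (r := ℓ) (M := M)
        (a := v (G x₀)) (p := p) (B := B₀) hℓ0 (h0 _) (hMr x₀ hx₀) hM0 hB₀p.le
        (fun x hx => by rw [hp]; exact hpar x₀ hx₀ x hx) z hz
      obtain ⟨B₁, hB₁⟩ : ∃ B₁ : ℝ, B₁ = B₀ + (M + |p| * ℓ) / ℓ ^ 2 := ⟨_, rfl⟩
      rw [← hB₁] at h1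
      have h2 : B₁ ≤ B := by
        rw [hB₁, hB, add_div]
        have h3 : |p| * ℓ / ℓ ^ 2 ≤ 2 * B₀ := by
          rw [div_le_iff₀ (by positivity)]
          nlinarith
        linarith
      have h20 : 0 ≤ B₁ := by rw [hB₁]; positivity
      have h4 : B₁ * (z.re ^ 2 - z.im ^ 2) ≤ B * ‖z‖ ^ 2 := by
        have h5 : z.re ^ 2 + z.im ^ 2 = ‖z‖ ^ 2 := by
          rw [← Complex.normSq_eq_norm_sq, Complex.normSq_apply]
          ring
        have h6 : z.re ^ 2 - z.im ^ 2 ≤ ‖z‖ ^ 2 := by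
          rw [← h5]; nlinarith [sq_nonneg z.im]
        exact (mul_le_mul_of_nonneg_left h6 h20).trans
          (mul_le_mul_of_nonneg_right h2 (sq_nonneg _))
      have h7 : 2 * B₁ * ℓ * |z.im| ≤ 2 * B * ℓ * |z.im| := by
        apply mul_le_mul_of_nonneg_right _ (abs_nonneg _)
        nlinarith
      linarith

/-- the slope is determined by a lower function which touches -/
theorem slope_eq {v : ℂ → ℝ} {C B r g p p' : ℝ} (hr : 0 < r) (h : Contact v C B r g p)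
    (h' : Contact v C B r g p') {T : ℂ → ℂ} (hT : AnalyticAt ℂ T g) (h1 : (T g).im = - v g)
    (h2 : ∀ᶠ z in 𝓝 (g:ℂ), - (T z).im ≤ v z) : p = p' := by
  have e1 := slope_im hr h hT h1 h2
  have e2 := slope_im hr h' hT h1 h2
  linarith

/-- the lower parabola -/
theorem low_par {v : ℂ → ℝ} {C B r g p : ℝ} (hr : 0 < r) (h : Contact v C B r g p)
    {T : ℂ → ℂ} (hT : AnalyticAt ℂ T g) (h1 : (T g).im = - v g)
    (h2 : ∀ᶠ z in 𝓝 (g:ℂ), - (T z).im ≤ v z) :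
    ∃ j : ℕ, 0 < j ∧ B ≤ j ∧ 1 / (j:ℝ) ≤ r ∧
      ∀ t : ℝ, |t| ≤ 1 / j → v g + p * t - j * t ^ 2 ≤ v ((g:ℂ) + t) := by
  have e1 := slope_im hr h hT h1 h2
  obtain ⟨K, hK, r1, hr1, hK1⟩ := taylor2 hT
  rw [Metric.eventually_nhds_iff] at h2
  obtain ⟨r2, hr2, h2⟩ := h2
  obtain ⟨j, hj⟩ := exists_nat_gt (max (max K B) (max (1 / r) (max (1 / r1) (1 / r2))))
  have hj1 : K < j := (le_max_left _ _).trans (le_max_left _ _) |>.trans_lt hj
  have hj2 : B < j := (le_max_right _ _).trans (le_max_left _ _) |>.trans_lt hj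
  have hj3 : 1 / r < j := (le_max_left _ _).trans (le_max_right _ _) |>.trans_lt hj
  have hj4 : 1 / r1 < j :=
    ((le_max_left _ _).trans (le_max_right _ _)).trans (le_max_right _ _) |>.trans_lt hj
  have hj5 : 1 / r2 < j :=
    ((le_max_right _ _).trans (le_max_right _ _)).trans (le_max_right _ _) |>.trans_lt hj
  have hj0 : (0:ℝ) < j := hK.trans hj1
  have hinv : ∀ x : ℝ, 0 < x → 1 / x < j → 1 / (j:ℝ) < x := by
    intro x hx h
    rw [div_lt_iff₀ hx] at h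
    rw [div_lt_iff₀ hj0]
    linarith
  refine ⟨j, by exact_mod_cast hj0, hj2.le, (hinv r hr hj3).le, fun t ht => ?_⟩
  have ht1 : ‖(t:ℂ)‖ < r1 := by
    rw [norm_real, Real.norm_eq_abs]
    exact ht.trans_lt (hinv r1 hr1 hj4)
  have ht2 : dist ((g:ℂ) + t) g < r2 := by
    rw [dist_eq_norm, add_sub_cancel_left, norm_real, Real.norm_eq_abs]
    exact ht.trans_lt (hinv r2 hr2 hj5)
  have h3 := h2 ht2
  have h4 := hK1 t ht1
  have h5 := (abs_im_le_norm _).trans h4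
  have h6 : (T ((g:ℂ) + t) - T g - deriv T g * t).im = (T ((g:ℂ) + t)).im - (T g).im
      - (deriv T g).im * t := by
    simp [sub_im, mul_im]
  rw [h6, e1, h1, norm_real, Real.norm_eq_abs, sq_abs] at h5
  have h7 := (abs_le.1 h5).2
  have h8 : K * t ^ 2 ≤ j * t ^ 2 := mul_le_mul_of_nonneg_right hj1.le (sq_nonneg t)
  linarith

/-- two-sided parabolas give a Lipschitz slope -/
theorem par_lip {v : ℂ → ℝ} {j g g' p p' : ℝ} (hj : 0 < j)
    (h : ∀ t : ℝ, |t| ≤ 1 / j → |v ((g:ℂ) + t) - v g - p * t| ≤ j * t ^ 2)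
    (h' : ∀ t : ℝ, |t| ≤ 1 / j → |v ((g':ℂ) + t) - v g' - p' * t| ≤ j * t ^ 2)
    (hg : |g - g'| ≤ 1 / (2 * j)) : |p - p'| ≤ 5 * j * |g - g'| := by
  rcases eq_or_ne g g' with rfl | hne
  · -- the same point
    have h0 : ∀ t : ℝ, 0 < t → t ≤ 1 / j → |p - p'| * t ≤ 2 * j * t ^ 2 := by
      intro t ht0 ht
      have a1 := h t (by rwa [abs_of_pos ht0])
      have a2 := h' t (by rwa [abs_of_pos ht0])
      have a3 : |(p - p') * t| ≤ 2 * (j * t ^ 2) := by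
        have : (p - p') * t = (v ((g:ℂ) + t) - v g - p' * t) - (v ((g:ℂ) + t) - v g - p * t) := by
          ring
        rw [this]
        exact (abs_sub _ _).trans (by linarith)
      rw [abs_mul, abs_of_pos ht0] at a3
      linarith
    rw [sub_self, abs_zero, mul_zero]
    by_contra hcon
    push Not at hcon
    obtain ⟨t, ht⟩ : ∃ t : ℝ, t = min (1 / j) (|p - p'| / (4 * j)) := ⟨_, rfl⟩
    have ht0 : 0 < t := by rw [ht]; positivity
    have ht1 : t ≤ 1 / j := by rw [ht]; exact min_le_left _ _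
    have ht2 : t ≤ |p - p'| / (4 * j) := by rw [ht]; exact min_le_right _ _
    have h1 := h0 t ht0 ht1
    rw [le_div_iff₀ (by positivity)] at ht2
    nlinarith
  · obtain ⟨D, hD⟩ : ∃ D : ℝ, D = |g - g'| := ⟨_, rfl⟩
    have hD0 : 0 < D := by rw [hD]; exact abs_pos.2 (sub_ne_zero.2 hne)
    rw [← hD] at hg ⊢
    have hD1 : D ≤ 1 / j := by
      refine hg.trans ?_
      rw [div_le_div_iff₀ (by positivity) hj]
      linarith
    have hD2 : 2 * D ≤ 1 / j := by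
      have : 2 * (1 / (2 * j)) = 1 / j := by field_simp
      linarith
    -- the point g' + s, s = D or - D, relative to g : t = (g' - g) + s
    have key : ∀ s : ℝ, |s| = D → |v ((g':ℂ) + s) - v g - p * ((g' - g) + s)| ≤ 4 * j * D ^ 2 ∧
        |v ((g':ℂ) + s) - v g' - p' * s| ≤ j * D ^ 2 := by
      intro s hs
      have hs2 : s ^ 2 = D ^ 2 := by rw [← hs, sq_abs]
      constructor
      · have ht : |(g' - g) + s| ≤ 2 * D := by
          refine (abs_add_le _ _).trans ?_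
          rw [hs, abs_sub_comm, ← hD]; linarith
        have a1 := h ((g' - g) + s) (ht.trans hD2)
        have e : (g:ℂ) + (((g' - g) + s : ℝ) : ℂ) = (g':ℂ) + s := by push_cast; ring
        rw [e] at a1
        have a2 : ((g' - g) + s) ^ 2 ≤ (2 * D) ^ 2 := by
          rw [← sq_abs]; exact pow_le_pow_left₀ (abs_nonneg _) ht 2
        nlinarith
      · have a1 := h' s (by rw [hs]; exact hD1)
        rwa [hs2] at a1
    obtain ⟨k1, k2⟩ := key D (abs_of_pos hD0)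
    obtain ⟨k3, k4⟩ := key (-D) (by rw [abs_neg, abs_of_pos hD0])
    have k1' := abs_le.1 k1
    have k2' := abs_le.1 k2
    have k3' := abs_le.1 k3
    have k4' := abs_le.1 k4
    have e1 : 2 * D * (p - p') ≤ 10 * j * D ^ 2 := by linarith [k1'.1, k2'.2, k3'.2, k4'.1]
    have e2 : -(10 * j * D ^ 2) ≤ 2 * D * (p - p') := by linarith [k1'.2, k2'.1, k3'.1, k4'.2]
    rw [abs_le]
    constructor
    · by_contra hcon
      push Not at hcon
      nlinarith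
    · by_contra hcon
      push Not at hcon
      nlinarith

/-- **the contact points are not null** -/
theorem contact_meas {a b M δ : ℝ} (hab : a < b) (hM0 : 0 ≤ M) (hδ : 0 < δ) :
    ∃ C B r : ℝ, 0 < C ∧ 0 < B ∧ 0 < r ∧ r ≤ δ ∧ ∀ v : ℂ → ℝ, SubH v univ → (∀ z, 0 ≤ v z) →
      (∀ x ∈ Icc a b, ∀ z : ℂ, ‖z‖ ≤ δ → v (x + z) ≤ M) →
      ∀ Gd : Set ℝ, volume (Ioo a b \ Gd) = 0 →
      (∀ g ∈ Ioo a b, (∃ p, Contact v C B r g p) → ∃ T : ℂ → ℂ, AnalyticAt ℂ T g ∧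
        (T g).im = - v g ∧ ∀ᶠ z in 𝓝 (g:ℂ), - (T z).im ≤ v z) →
      ¬ {g : ℝ | g ∈ Ioo a b ∧ g ∈ Gd ∧ ∃ p, Contact v C B r g p}.Countable := by
  obtain ⟨C, B, r, B₀, ℓ, hC, hB, hr, hrδ, hB₀, hℓ, hℓab, hmain⟩ := exists_contact hab hM0 hδ
  refine ⟨C, B, r, hC, hB, hr, hrδ, fun v hv h0 hvM Gd hGd hT hcount => ?_⟩
  obtain ⟨G, hG⟩ := hmain v hv h0 hvM
  classical
  obtain ⟨P, hP⟩ : ∃ P : ℝ → ℝ, ∀ g, (∃ p, Contact v C B r g p) → Contact v C B r g (P g) :=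
    ⟨fun g => if h : ∃ p, Contact v C B r g p then h.choose else 0, fun g h => by
      simp only [dif_pos h]
      exact h.choose_spec⟩
  have hPu : ∀ g ∈ Ioo a b, ∀ p, Contact v C B r g p → p = P g := by
    intro g hg p hp
    obtain ⟨T, hT1, hT2, hT3⟩ := hT g hg ⟨p, hp⟩
    exact slope_eq hr hp (hP g ⟨p, hp⟩) hT1 hT2 hT3
  obtain ⟨φ, hφ⟩ : ∃ φ : ℝ → ℝ, ∀ g, φ g = g - P g / (2 * B₀) := ⟨_, fun _ => rfl⟩
  -- the set of contact points is null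
  obtain ⟨E, hE⟩ : ∃ E : Set ℝ, E = {g | g ∈ Ioo a b ∧ ∃ p, Contact v C B r g p} := ⟨_, rfl⟩
  have hE0 : volume E = 0 := by
    have hsub : E ⊆ {g : ℝ | g ∈ Ioo a b ∧ g ∈ Gd ∧ ∃ p, Contact v C B r g p} ∪ (Ioo a b \ Gd) := by
      intro g hg
      rw [hE] at hg
      by_cases h : g ∈ Gd
      · exact Or.inl ⟨hg.1, h, hg.2⟩
      · exact Or.inr ⟨hg.1, h⟩
    exact measure_mono_null hsub (measure_union_null (hcount.measure_zero _) hGd)
  -- the pieces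
  obtain ⟨F, hF⟩ : ∃ F : ℕ → ℤ → Set ℝ, ∀ j k, F j k = {g | g ∈ E ∧
      (∀ t : ℝ, |t| ≤ 1 / ((j:ℝ) + 1) →
        |v ((g:ℂ) + t) - v g - P g * t| ≤ ((j:ℝ) + 1) * t ^ 2) ∧
      g ∈ Icc ((k:ℝ) / (2 * ((j:ℝ) + 1))) (((k:ℝ) + 1) / (2 * ((j:ℝ) + 1)))} :=
    ⟨fun j k => {g | g ∈ E ∧
      (∀ t : ℝ, |t| ≤ 1 / ((j:ℝ) + 1) →
        |v ((g:ℂ) + t) - v g - P g * t| ≤ ((j:ℝ) + 1) * t ^ 2) ∧
      g ∈ Icc ((k:ℝ) / (2 * ((j:ℝ) + 1))) (((k:ℝ) + 1) / (2 * ((j:ℝ) + 1)))}, fun _ _ => rfl⟩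
  have hcov : ∀ g ∈ E, ∃ j k, g ∈ F j k := by
    intro g hg
    have hg' := hg
    rw [hE] at hg'
    obtain ⟨hgab, hgp⟩ := hg'
    have hPg := hP g hgp
    obtain ⟨T, hT1, hT2, hT3⟩ := hT g hgab hgp
    obtain ⟨j, hj0, hjB, hjr, hj⟩ := low_par hr hPg hT1 hT2 hT3
    have hj0' : (0:ℝ) < j := by exact_mod_cast hj0
    have hj1 : (0:ℝ) < (j:ℝ) + 1 := by linarith
    refine ⟨j, ⌊g * (2 * ((j:ℝ) + 1))⌋, ?_⟩
    rw [hF]
    refine ⟨hg, fun t ht => ?_, ?_⟩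
    · have ht' : |t| ≤ 1 / (j:ℝ) := by
        refine ht.trans ?_
        rw [div_le_div_iff₀ hj1 hj0']
        linarith
      have a1 := hj t ht'
      have a2 := hPg.2 t (by
        rw [norm_real, Real.norm_eq_abs]
        exact ht'.trans hjr)
      simp only [ofReal_re, ofReal_im, abs_zero, mul_zero, add_zero, norm_real,
        Real.norm_eq_abs, sq_abs] at a2
      have a3 : B * t ^ 2 ≤ j * t ^ 2 := mul_le_mul_of_nonneg_right hjB (sq_nonneg t)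
      have a4 := sq_nonneg t
      rw [abs_le]
      constructor <;> linarith
    · have a1 := Int.floor_le (g * (2 * ((j:ℝ) + 1)))
      have a2 := (Int.lt_floor_add_one (g * (2 * ((j:ℝ) + 1)))).le
      constructor
      · rw [div_le_iff₀ (by positivity)]
        exact a1
      · rw [le_div_iff₀ (by positivity)]
        exact a2
  have hlip : ∀ (j : ℕ) (k : ℤ), LipschitzOnWith (Real.toNNReal (1 + 5 * ((j:ℝ) + 1) / (2 * B₀))) φ (F j k) := by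
    intro j k
    apply LipschitzOnWith.of_dist_le_mul
    intro g hg g' hg'
    rw [hF] at hg hg'
    obtain ⟨hg1, hg2, hg3⟩ := hg
    obtain ⟨hg1', hg2', hg3'⟩ := hg'
    have hj1 : (0:ℝ) < (j:ℝ) + 1 := by positivity
    have hd : |g - g'| ≤ 1 / (2 * ((j:ℝ) + 1)) := by
      have e : ((k:ℝ) + 1) / (2 * ((j:ℝ) + 1)) = (k:ℝ) / (2 * ((j:ℝ) + 1))
          + 1 / (2 * ((j:ℝ) + 1)) := by rw [add_div]
      rw [abs_le]
      rw [mem_Icc] at hg3 hg3'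
      constructor <;> linarith [hg3.1, hg3.2, hg3'.1, hg3'.2]
    have hp := par_lip hj1 hg2 hg2' hd
    rw [Real.coe_toNNReal _ (by positivity), Real.dist_eq, Real.dist_eq, hφ, hφ]
    have e : g - P g / (2 * B₀) - (g' - P g' / (2 * B₀)) = (g - g') - (P g - P g') / (2 * B₀) := by
      ring
    rw [e]
    refine (abs_sub _ _).trans ?_
    rw [abs_div, abs_of_pos (by positivity : 0 < 2 * B₀), add_mul, one_mul]
    have h3 : |P g - P g'| / (2 * B₀) ≤ 5 * ((j:ℝ) + 1) * |g - g'| / (2 * B₀) :=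
      div_le_div_of_nonneg_right hp (by positivity)
    have h4 : 5 * ((j:ℝ) + 1) * |g - g'| / (2 * B₀) = 5 * ((j:ℝ) + 1) / (2 * B₀) * |g - g'| := by
      ring
    linarith
  have hnull : ∀ j k, volume (φ '' (F j k)) = 0 := by
    intro j k
    have h1 : volume (F j k) = 0 := measure_mono_null (fun g hg => by
      rw [hF] at hg; exact hg.1) hE0
    have h2 := (hlip j k).hausdorffMeasure_image_le (d := 1) zero_le_one
    rw [hausdorffMeasure_real, h1, mul_zero] at h2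
    exact le_antisymm h2 zero_le
  have hI : Icc (a + 2 * ℓ) (b - 2 * ℓ) ⊆ ⋃ j : ℕ, ⋃ k : ℤ, φ '' (F j k) := by
    intro x₀ hx₀
    obtain ⟨hg1, hg2⟩ := hG x₀ hx₀
    have hgE : G x₀ ∈ E := by rw [hE]; exact ⟨hg1, _, hg2⟩
    obtain ⟨j, k, hjk⟩ := hcov _ hgE
    rw [mem_iUnion]
    refine ⟨j, ?_⟩
    rw [mem_iUnion]
    refine ⟨k, G x₀, hjk, ?_⟩
    rw [hφ, ← hPu _ hg1 _ hg2]
    field_simp
    ring
  have hz : volume (Icc (a + 2 * ℓ) (b - 2 * ℓ)) = 0 :=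
    measure_mono_null hI (measure_iUnion_null fun j => measure_iUnion_null fun k => hnull j k)
  rw [Real.volume_Icc, ENNReal.ofReal_eq_zero] at hz
  linarith

end Pool.Agent.MP_ae5b4e_an_A2
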