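import Pool.Agent.Lib.MP_ae5b4e_an_A2.Meas

/-!
# MP_ae5b4e_an, STEP A, block A2: the contact points are not a null set, with exceptions

`contact_meas` with a countable exceptional set `N`: outside `N` every contact point carries an
analytic `T` with `Im T = - v` at the point and `- Im T ≤ v` near it.
-/

set_option autoImplicit false

noncomputable section

namespace Pool.Agent.MP_ae5b4e_an_A2

open Complex Set Filter Topology Metric InnerProductSpace MeasureTheory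
open Pool.Agent.Lib.MP_ae5b4e_an_LL (SubH)
open Pool.Agent.MP_ae5b4e_an_N4 (subH_conj)
open scoped ComplexConjugate

/-- the slope of a contact point is unique -/
theorem contact_slope_unique {v : ℂ → ℝ} (hv : SubH v univ) (h0 : ∀ z, 0 ≤ v z) {C B r M g p p' : ℝ}
    (hr : 0 < r) (hB : 0 ≤ B) (hM : ∀ z : ℂ, ‖z‖ ≤ r → v (g + z) ≤ M) (h : Contact v C B r g p)
    (h' : Contact v C B r g p') : p = p' := by
  have hlt : ∀ {p p' : ℝ}, Contact v C B r g p → Contact v C B r g p' → p < p' → False := by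
    intro p p' h h' hl
    refine no_peak (v := fun z => v (g + z)) (subH_add hv _) (r := r) (M := M)
      (p := (p + p') / 2) (B := B) (κ := (p' - p) / 2) hr (h0 _) hM
      ((h0 _).trans (hM 0 (by simpa using hr.le))) hB (by linarith) ?_
    intro x hx
    beta_reduce
    rw [add_zero]
    have hx' : ‖(x : ℂ)‖ ≤ r := by rwa [norm_real, Real.norm_eq_abs]
    have e1 := h.2 x hx'
    have e2 := h'.2 x hx'
    simp only [ofReal_re, ofReal_im, abs_zero, mul_zero, add_zero, norm_real,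
      Real.norm_eq_abs, sq_abs] at e1 e2
    rcases le_total 0 x with hx0 | hx0
    · rw [abs_of_nonneg hx0]
      nlinarith
    · rw [abs_of_nonpos hx0]
      nlinarith
  rcases lt_trichotomy p p' with hl | hl | hl
  · exact (hlt h h' hl).elim
  · exact hl
  · exact (hlt h' h hl).elim

/-- **the contact points are not null**, with a countable set `N` of exceptions -/
theorem contact_meas_c {a b M δ : ℝ} (hab : a < b) (hM0 : 0 ≤ M) (hδ : 0 < δ) :
    ∃ C B r : ℝ, 0 < C ∧ 0 < B ∧ 0 < r ∧ r ≤ δ ∧ ∀ v : ℂ → ℝ, SubH v univ → (∀ z, 0 ≤ v z) →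
      (∀ x ∈ Icc a b, ∀ z : ℂ, ‖z‖ ≤ δ → v (x + z) ≤ M) →
      ∀ Gd N : Set ℝ, volume (Ioo a b \ Gd) = 0 → N.Countable →
      (∀ g ∈ Ioo a b, g ∉ N → (∃ p, Contact v C B r g p) → ∃ T : ℂ → ℂ, AnalyticAt ℂ T g ∧
        (T g).im = - v g ∧ ∀ᶠ z in 𝓝 (g:ℂ), - (T z).im ≤ v z) →
      ¬ {g : ℝ | g ∈ Ioo a b ∧ g ∈ Gd ∧ ∃ p, Contact v C B r g p}.Countable := by
  obtain ⟨C, B, r, B₀, ℓ, hC, hB, hr, hrδ, hB₀, hℓ, hℓab, hmain⟩ := exists_contact hab hM0 hδ
  refine ⟨C, B, r, hC, hB, hr, hrδ, fun v hv h0 hvM Gd N hGd hN hT hcount => ?_⟩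
  obtain ⟨G, hG⟩ := hmain v hv h0 hvM
  classical
  obtain ⟨P, hP⟩ : ∃ P : ℝ → ℝ, ∀ g, (∃ p, Contact v C B r g p) → Contact v C B r g (P g) :=
    ⟨fun g => if h : ∃ p, Contact v C B r g p then h.choose else 0, fun g h => by
      simp only [dif_pos h]
      exact h.choose_spec⟩
  have hPu : ∀ g ∈ Ioo a b, ∀ p, Contact v C B r g p → p = P g := by
    intro g hg p hp
    exact contact_slope_unique hv h0 hr hB.le
      (fun z hz => hvM g ⟨hg.1.le, hg.2.le⟩ z (hz.trans hrδ)) hp (hP g ⟨p, hp⟩)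
  obtain ⟨φ, hφ⟩ : ∃ φ : ℝ → ℝ, ∀ g, φ g = g - P g / (2 * B₀) := ⟨_, fun _ => rfl⟩
  -- the set of contact points is null
  obtain ⟨E, hE⟩ : ∃ E : Set ℝ, E = {g | g ∈ Ioo a b ∧ ∃ p, Contact v C B r g p} := ⟨_, rfl⟩
  have hE0 : volume E = 0 := by
    have hsub : E ⊆ {g : ℝ | g ∈ Ioo a b ∧ g ∈ Gd ∧ ∃ p, Contact v C B r g p} ∪ (Ioo a b \ Gd) := by
      intro g hg
      rw [hE] at hg
      by_cases h : g ∈ Gd
      · exact Or.inl ⟨hg.1, h, hg.2⟩
      · exact Or.inr ⟨hg.1, h⟩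
    exact measure_mono_null hsub (measure_union_null (hcount.measure_zero _) hGd)
  -- the pieces
  obtain ⟨F, hF⟩ : ∃ F : ℕ → ℤ → Set ℝ, ∀ j k, F j k = {g | g ∈ E ∧
      (∀ t : ℝ, |t| ≤ 1 / ((j:ℝ) + 1) →
        |v ((g:ℂ) + t) - v g - P g * t| ≤ ((j:ℝ) + 1) * t ^ 2) ∧
      g ∈ Icc ((k:ℝ) / (2 * ((j:ℝ) + 1))) (((k:ℝ) + 1) / (2 * ((j:ℝ) + 1)))} :=
    ⟨fun j k => {g | g ∈ E ∧
      (∀ t : ℝ, |t| ≤ 1 / ((j:ℝ) + 1) →
        |v ((g:ℂ) + t) - v g - P g * t| ≤ ((j:ℝ) + 1) * t ^ 2) ∧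
      g ∈ Icc ((k:ℝ) / (2 * ((j:ℝ) + 1))) (((k:ℝ) + 1) / (2 * ((j:ℝ) + 1)))}, fun _ _ => rfl⟩
  have hcov : ∀ g ∈ E, g ∉ N → ∃ j k, g ∈ F j k := by
    intro g hg hgN
    have hg' := hg
    rw [hE] at hg'
    obtain ⟨hgab, hgp⟩ := hg'
    have hPg := hP g hgp
    obtain ⟨T, hT1, hT2, hT3⟩ := hT g hgab hgN hgp
    obtain ⟨j, hj0, hjB, hjr, hj⟩ := low_par hr hPg hT1 hT2 hT3
    have hj0' : (0:ℝ) < j := by exact_mod_cast hj0
    have hj1 : (0:ℝ) < (j:ℝ) + 1 := by linarith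
    refine ⟨j, ⌊g * (2 * ((j:ℝ) + 1))⌋, ?_⟩
    rw [hF]
    refine ⟨hg, fun t ht => ?_, ?_⟩
    · have ht' : |t| ≤ 1 / (j:ℝ) := by
        refine ht.trans ?_
        rw [div_le_div_iff₀ hj1 hj0']
        linarith
      have a1 := hj t ht'
      have a2 := hPg.2 t (by
        rw [norm_real, Real.norm_eq_abs]
        exact ht'.trans hjr)
      simp only [ofReal_re, ofReal_im, abs_zero, mul_zero, add_zero, norm_real,
        Real.norm_eq_abs, sq_abs] at a2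
      have a3 : B * t ^ 2 ≤ j * t ^ 2 := mul_le_mul_of_nonneg_right hjB (sq_nonneg t)
      have a4 := sq_nonneg t
      rw [abs_le]
      constructor <;> linarith
    · have a1 := Int.floor_le (g * (2 * ((j:ℝ) + 1)))
      have a2 := (Int.lt_floor_add_one (g * (2 * ((j:ℝ) + 1)))).le
      constructor
      · rw [div_le_iff₀ (by positivity)]
        exact a1
      · rw [le_div_iff₀ (by positivity)]
        exact a2
  have hlip : ∀ (j : ℕ) (k : ℤ),
      LipschitzOnWith (Real.toNNReal (1 + 5 * ((j:ℝ) + 1) / (2 * B₀))) φ (F j k) := by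
    intro j k
    apply LipschitzOnWith.of_dist_le_mul
    intro g hg g' hg'
    rw [hF] at hg hg'
    obtain ⟨hg1, hg2, hg3⟩ := hg
    obtain ⟨hg1', hg2', hg3'⟩ := hg'
    have hj1 : (0:ℝ) < (j:ℝ) + 1 := by positivity
    have hd : |g - g'| ≤ 1 / (2 * ((j:ℝ) + 1)) := by
      have e : ((k:ℝ) + 1) / (2 * ((j:ℝ) + 1)) = (k:ℝ) / (2 * ((j:ℝ) + 1))
          + 1 / (2 * ((j:ℝ) + 1)) := by rw [add_div]
      rw [abs_le]
      rw [mem_Icc] at hg3 hg3'
      constructor <;> linarith [hg3.1, hg3.2, hg3'.1, hg3'.2]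
    have hp := par_lip hj1 hg2 hg2' hd
    rw [Real.coe_toNNReal _ (by positivity), Real.dist_eq, Real.dist_eq, hφ, hφ]
    have e : g - P g / (2 * B₀) - (g' - P g' / (2 * B₀)) = (g - g') - (P g - P g') / (2 * B₀) := by
      ring
    rw [e]
    refine (abs_sub _ _).trans ?_
    rw [abs_div, abs_of_pos (by positivity : 0 < 2 * B₀), add_mul, one_mul]
    have h3 : |P g - P g'| / (2 * B₀) ≤ 5 * ((j:ℝ) + 1) * |g - g'| / (2 * B₀) :=
      div_le_div_of_nonneg_right hp (by positivity)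
    have h4 : 5 * ((j:ℝ) + 1) * |g - g'| / (2 * B₀) = 5 * ((j:ℝ) + 1) / (2 * B₀) * |g - g'| := by
      ring
    linarith
  have hnull : ∀ j k, volume (φ '' (F j k)) = 0 := by
    intro j k
    have h1 : volume (F j k) = 0 := measure_mono_null (fun g hg => by
      rw [hF] at hg; exact hg.1) hE0
    have h2 := (hlip j k).hausdorffMeasure_image_le (d := 1) zero_le_one
    rw [hausdorffMeasure_real, h1, mul_zero] at h2
    exact le_antisymm h2 zero_le
  have hI : Icc (a + 2 * ℓ) (b - 2 * ℓ) ⊆ (φ '' N) ∪ ⋃ j : ℕ, ⋃ k : ℤ, φ '' (F j k) := by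
    intro x₀ hx₀
    obtain ⟨hg1, hg2⟩ := hG x₀ hx₀
    have hgE : G x₀ ∈ E := by rw [hE]; exact ⟨hg1, _, hg2⟩
    have hval : φ (G x₀) = x₀ := by
      rw [hφ, ← hPu _ hg1 _ hg2]
      field_simp
      ring
    by_cases hgN : G x₀ ∈ N
    · exact Or.inl ⟨G x₀, hgN, hval⟩
    · obtain ⟨j, k, hjk⟩ := hcov _ hgE hgN
      refine Or.inr ?_
      rw [mem_iUnion]
      refine ⟨j, ?_⟩
      rw [mem_iUnion]
      exact ⟨k, G x₀, hjk, hval⟩
  have hz : volume (Icc (a + 2 * ℓ) (b - 2 * ℓ)) = 0 :=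
    measure_mono_null hI (measure_union_null ((hN.image φ).measure_zero _)
      (measure_iUnion_null fun j => measure_iUnion_null fun k => hnull j k))
  rw [Real.volume_Icc, ENNReal.ofReal_eq_zero] at hz
  linarith

end Pool.Agent.MP_ae5b4e_an_A2
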