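import Pool.Agent.Lib.MP_ae5b4e_an_A2.Half

/-!
# MP_ae5b4e_an, STEP A, block A2: no concave corner along the real axis
-/

set_option autoImplicit false

noncomputable section

namespace Pool.Agent.MP_ae5b4e_an_A2

open Complex Set Filter Topology Metric InnerProductSpace
open Pool.Agent.Lib.MP_ae5b4e_an_LL (SubH)
open Pool.Agent.MP_ae5b4e_an_N4 (subH_conj)
open scoped ComplexConjugate

/-- harmonic in the upper half plane, equal to `- (π / 2) |x|` on the real axis -/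
def Lg (z : ℂ) : ℝ := (z * Complex.log (-I * z)).im

theorem Lg_eq (z : ℂ) : Lg z = z.im * Real.log ‖z‖ + z.re * arg (-I * z) := by
  unfold Lg
  rw [Complex.mul_im, Complex.log_re, Complex.log_im, norm_mul, norm_neg, Complex.norm_I, one_mul]
  ring

theorem Lg_real (x : ℝ) : Lg x = -(Real.pi / 2 * |x|) := by
  rw [Lg_eq]
  simp only [ofReal_im, zero_mul, ofReal_re, zero_add]
  rcases lt_trichotomy x 0 with h | h | h
  · have h1 : -I * (x : ℂ) = ((-x : ℝ) : ℂ) * I := by push_cast; ring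
    rw [h1, Complex.arg_real_mul _ (by linarith), Complex.arg_I, abs_of_neg h]
    ring
  · subst h; simp
  · have h1 : -I * (x : ℂ) = (x : ℂ) * (-I) := by ring
    rw [h1, Complex.arg_real_mul _ h, Complex.arg_neg_I, abs_of_pos h]
    ring

theorem Lg_le {z : ℂ} (_hz : 0 ≤ z.im) : Lg z ≤ z.im * Real.log ‖z‖ := by
  rw [Lg_eq]
  have h1 : (-I * z).im = -z.re := by simp
  have h2 : z.re * arg (-I * z) ≤ 0 := by
    rcases le_or_gt z.re 0 with h | h
    · exact mul_nonpos_of_nonpos_of_nonneg h (Complex.arg_nonneg_iff.2 (by rw [h1]; linarith))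
    · exact (mul_neg_of_pos_of_neg h (Complex.arg_neg_iff.2 (by rw [h1]; linarith))).le
  linarith

theorem abs_Lg_le (z : ℂ) : |Lg z| ≤ |‖z‖ * Real.log ‖z‖| + Real.pi * ‖z‖ := by
  rw [Lg_eq]
  refine (abs_add_le _ _).trans (add_le_add ?_ ?_)
  · rw [abs_mul, abs_mul, abs_norm]
    exact mul_le_mul_of_nonneg_right (Complex.abs_im_le_norm z) (abs_nonneg _)
  · rw [abs_mul, mul_comm Real.pi]
    exact mul_le_mul (Complex.abs_re_le_norm z) (Complex.abs_arg_le_pi _) (abs_nonneg _)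
      (norm_nonneg _)

theorem Lg_slit {z : ℂ} (hz : 0 ≤ z.im) (h0 : z ≠ 0) : -I * z ∈ slitPlane := by
  rcases hz.eq_or_lt with h | h
  · right
    intro h1
    apply h0
    apply Complex.ext
    · simpa using h1
    · simpa using h.symm
  · left
    simpa using h

theorem Lg_an {z : ℂ} (hz : 0 ≤ z.im) (h0 : z ≠ 0) :
    AnalyticAt ℂ (fun z : ℂ => z * Complex.log (-I * z)) z := by
  have h1 : AnalyticAt ℂ (fun z : ℂ => -I * z) z := by fun_prop
  exact analyticAt_id.mul (h1.clog (Lg_slit hz h0))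

theorem Lg_cont : ContinuousOn Lg {z : ℂ | 0 ≤ z.im} := by
  intro z hz
  by_cases h0 : z = 0
  · subst h0
    have h1 : Lg 0 = 0 := by simp [Lg]
    apply ContinuousAt.continuousWithinAt
    rw [ContinuousAt, h1]
    have h2 : Continuous fun z : ℂ => |‖z‖ * Real.log ‖z‖| + Real.pi * ‖z‖ :=
      ((Real.continuous_mul_log.comp continuous_norm).abs).add
        (continuous_const.mul continuous_norm)
    have h3 := h2.tendsto 0
    simp only [norm_zero, zero_mul, abs_zero, mul_zero, add_zero] at h3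
    exact squeeze_zero_norm (fun z => by rw [Real.norm_eq_abs]; exact abs_Lg_le z) h3
  · exact ((Complex.continuous_im.continuousAt).comp
      (Lg_an hz h0).continuousAt).continuousWithinAt

theorem peak_up {v : ℂ → ℝ} (hv : SubH v univ) {r M a p B κ : ℝ} (hr : 0 < r) (ha : 0 ≤ a)
    (hM : ∀ z : ℂ, ‖z‖ ≤ r → v z ≤ M) (hM0 : 0 ≤ M) (hB : 0 ≤ B) (hκ : 0 ≤ κ)
    (h1 : ∀ x : ℝ, |x| ≤ r → v x ≤ a + p * x - κ * |x| + B * x ^ 2) :
    ∀ z : ℂ, ‖z‖ ≤ r → 0 ≤ z.im →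
      v z ≤ a + p * z.re + 2 * κ / Real.pi * (z.im * Real.log ‖z‖) +
        (B + (M + |p| * r + 2 * κ / Real.pi * (|r * Real.log r| + Real.pi * r)) / r ^ 2) *
          ‖z‖ ^ 2 +
        2 * (B + (M + |p| * r + 2 * κ / Real.pi * (|r * Real.log r| + Real.pi * r)) / r ^ 2) *
          r * z.im := by
  have hπ := Real.pi_pos
  obtain ⟨Λ, hΛ⟩ : ∃ Λ : ℝ, Λ = |r * Real.log r| + Real.pi * r := ⟨_, rfl⟩
  obtain ⟨B', hB'⟩ : ∃ B' : ℝ, B' = B + (M + |p| * r + 2 * κ / Real.pi * Λ) / r ^ 2 := ⟨_, rfl⟩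
  rw [← hΛ, ← hB']
  have hΛ0 : 0 ≤ Λ := by rw [hΛ]; positivity
  have hp : 0 ≤ |p| := abs_nonneg p
  have hr2 : 0 < r ^ 2 := by positivity
  have hq : 0 ≤ 2 * κ / Real.pi := by positivity
  have hBB : B ≤ B' := by
    rw [hB']
    have : 0 ≤ (M + |p| * r + 2 * κ / Real.pi * Λ) / r ^ 2 := by positivity
    linarith
  have hBr : M + |p| * r + 2 * κ / Real.pi * Λ ≤ B' * r ^ 2 := by
    rw [hB', add_mul, div_mul_cancel₀ _ hr2.ne']
    have : 0 ≤ B * r ^ 2 := by positivity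
    linarith
  have hB'0 : 0 ≤ B' := hB.trans hBB
  obtain ⟨A, hA⟩ : ∃ A : ℂ → ℂ, A = fun z => (a:ℂ) + p * z +
    (-I) * ((2 * κ / Real.pi : ℝ) : ℂ) * (z * Complex.log (-I * z)) +
    B' * z ^ 2 - I * (2 * B' * r) * z := ⟨_, rfl⟩
  have hAre : ∀ z, (A z).re = a + p * z.re + 2 * κ / Real.pi * Lg z +
      B' * (z.re ^ 2 - z.im ^ 2) + 2 * B' * r * z.im := by
    intro z
    rw [hA]
    have e1 : ((-I) * ((2 * κ / Real.pi : ℝ) : ℂ) * (z * Complex.log (-I * z))).re =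
        2 * κ / Real.pi * Lg z := by
      have e2 : (-I) * ((2 * κ / Real.pi : ℝ) : ℂ) * (z * Complex.log (-I * z)) =
          ((2 * κ / Real.pi : ℝ) : ℂ) * (-I * (z * Complex.log (-I * z))) := by ring
      rw [e2, Complex.re_ofReal_mul]
      unfold Lg
      congr 1
      simp
    simp only [add_re, sub_re]
    rw [e1]
    simp [pow_two]
  have key := up_le hv (h := fun z => (A z).re) (r := r) (harm_re fun z hz => ?_) ?_ ?_ ?_
  · intro z hz1 hz2
    have h3 := key z hz1 hz2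
    rw [hAre] at h3
    have h4 := mul_le_mul_of_nonneg_left (Lg_le hz2) hq
    have h5 : z.re ^ 2 + z.im ^ 2 = ‖z‖ ^ 2 := by
      rw [← Complex.normSq_eq_norm_sq, Complex.normSq_apply]
      ring
    have h6 : B' * (z.re ^ 2 - z.im ^ 2) ≤ B' * ‖z‖ ^ 2 := by
      apply mul_le_mul_of_nonneg_left _ hB'0
      rw [← h5]
      nlinarith [sq_nonneg z.im]
    linarith
  · rw [hA]
    have h0 : z ≠ 0 := by
      rintro rfl
      exact lt_irrefl _ (show (0:ℝ) < (0:ℂ).im from hz.2)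
    have h3 := Lg_an hz.2.le h0
    fun_prop
  · have h3 : EqOn (fun z => (A z).re) (fun z => a + p * z.re + 2 * κ / Real.pi * Lg z +
      B' * (z.re ^ 2 - z.im ^ 2) + 2 * B' * r * z.im) {z : ℂ | ‖z‖ ≤ r ∧ 0 ≤ z.im} :=
      fun z _ => hAre z
    refine ContinuousOn.congr ?_ h3
    have h4 : ContinuousOn Lg {z : ℂ | ‖z‖ ≤ r ∧ 0 ≤ z.im} := Lg_cont.mono fun z hz => hz.2
    have h5 := Complex.continuous_re
    have h6 := Complex.continuous_im
    fun_prop
  · intro x hx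
    beta_reduce
    rw [hAre, Lg_real]
    refine (h1 x hx).trans ?_
    simp only [ofReal_re, ofReal_im]
    have h3 : B * x ^ 2 ≤ B' * x ^ 2 := mul_le_mul_of_nonneg_right hBB (sq_nonneg x)
    have h4 : 2 * κ / Real.pi * -(Real.pi / 2 * |x|) = -(κ * |x|) := by
      field_simp
    rw [h4]
    nlinarith
  · intro z hz1 hz2
    beta_reduce
    rw [hAre]
    refine (hM z hz1.le).trans ?_
    have h3 : z.re ^ 2 + z.im ^ 2 = r ^ 2 := by
      rw [← hz1, ← Complex.normSq_eq_norm_sq, Complex.normSq_apply]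
      ring
    have h4 : |z.re| ≤ r := by rw [← hz1]; exact Complex.abs_re_le_norm z
    have h5 : z.im ≤ r := by
      rw [← hz1]; exact (le_abs_self _).trans (Complex.abs_im_le_norm z)
    have h6 : -(|p| * r) ≤ p * z.re := by
      have h7 : |p * z.re| ≤ |p| * r := by
        rw [abs_mul]; exact mul_le_mul_of_nonneg_left h4 hp
      exact (abs_le.1 h7).1
    have h8 : 0 ≤ B' * (2 * z.im * (r - z.im)) := by
      apply mul_nonneg hB'0
      apply mul_nonneg (by linarith) (by linarith)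
    have h10 : -(2 * κ / Real.pi * Λ) ≤ 2 * κ / Real.pi * Lg z := by
      have h11 := abs_Lg_le z
      rw [hz1, ← hΛ] at h11
      have h12 := mul_le_mul_of_nonneg_left (abs_le.1 h11).1 hq
      linarith
    have h9 : z.re ^ 2 = r ^ 2 - z.im ^ 2 := by linarith
    rw [h9]
    nlinarith

/-- a concave corner along the real axis is impossible -/
theorem no_peak {v : ℂ → ℝ} (hv : SubH v univ) {r M p B κ : ℝ} (hr : 0 < r) (ha : 0 ≤ v 0)
    (hM : ∀ z : ℂ, ‖z‖ ≤ r → v z ≤ M) (hM0 : 0 ≤ M) (hB : 0 ≤ B) (hκ : 0 < κ)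
    (h1 : ∀ x : ℝ, |x| ≤ r → v x ≤ v 0 + p * x - κ * |x| + B * x ^ 2) : False := by
  have hπ := Real.pi_pos
  obtain ⟨B', hB', hall⟩ : ∃ B' : ℝ, 0 ≤ B' ∧ ∀ z : ℂ, ‖z‖ ≤ r →
      v z ≤ v 0 + p * z.re + 2 * κ / Real.pi * (|z.im| * Real.log ‖z‖) + B' * ‖z‖ ^ 2 +
        2 * B' * r * |z.im| := by
    refine ⟨B + (M + |p| * r + 2 * κ / Real.pi * (|r * Real.log r| + Real.pi * r)) / r ^ 2,
      by positivity, fun z hz => ?_⟩
    rcases le_total 0 z.im with h | h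
    · rw [abs_of_nonneg h]
      exact peak_up hv hr ha hM hM0 hB hκ.le h1 z hz h
    · have h2 := peak_up (v := fun z => v (conj z)) (subH_conj hv) (r := r) (M := M) (a := v 0)
        (p := p) (B := B) (κ := κ) hr ha (fun z hz => hM _ (by rwa [RCLike.norm_conj])) hM0 hB hκ.le
        (fun x hx => by rw [Complex.conj_ofReal]; exact h1 x hx) (conj z)
        (by rwa [RCLike.norm_conj]) (by rw [Complex.conj_im]; linarith)
      rw [Complex.conj_conj, Complex.conj_re, Complex.conj_im, RCLike.norm_conj] at h2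
      rw [abs_of_nonpos h]
      exact h2
  obtain ⟨ρ, hρ0, hρr, hρ⟩ : ∃ ρ : ℝ, 0 < ρ ∧ ρ ≤ r ∧
      2 * κ / Real.pi * Real.log ρ < -(4 * B' * r) := by
    have hq : 0 < 2 * κ / Real.pi := by positivity
    have e1 : ∀ᶠ ρ in 𝓝[>] (0:ℝ), Real.log ρ < -(4 * B' * r) / (2 * κ / Real.pi) :=
      Real.tendsto_log_nhdsGT_zero.eventually_lt_atBot _
    have e2 : ∀ᶠ ρ in 𝓝[>] (0:ℝ), ρ ∈ Ioc 0 r := Ioc_mem_nhdsGT hr
    obtain ⟨ρ, h2, h3⟩ := (e1.and e2).exists
    refine ⟨ρ, h3.1, h3.2, ?_⟩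
    have := mul_lt_mul_of_pos_left h2 hq
    rwa [mul_div_cancel₀ _ hq.ne'] at this
  obtain ⟨D, hD⟩ : ∃ D : ℝ, D = 2 * κ / Real.pi * Real.log ρ + 2 * B' * r := ⟨_, rfl⟩
  have hD0 : D < 0 := by
    rw [hD]
    have : 0 ≤ B' * r := by positivity
    linarith
  obtain ⟨A, hA⟩ : ∃ A : ℂ → ℂ, A = fun z => ((v 0 : ℝ):ℂ) + p * z +
    ((D / (2 * ρ) : ℝ) : ℂ) * ((ρ:ℂ) ^ 2 - z ^ 2) + B' * ρ ^ 2 := ⟨_, rfl⟩
  have hAre : ∀ z, (A z).re = v 0 + p * z.re + D / (2 * ρ) * (ρ ^ 2 - (z.re ^ 2 - z.im ^ 2)) +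
      B' * ρ ^ 2 := by
    intro z
    rw [hA]
    simp only [add_re]
    have e1 : (((D / (2 * ρ) : ℝ) : ℂ) * ((ρ:ℂ) ^ 2 - z ^ 2)).re =
        D / (2 * ρ) * (ρ ^ 2 - (z.re ^ 2 - z.im ^ 2)) := by
      rw [Complex.re_ofReal_mul]
      simp [pow_two]
    have e2 : ((B':ℂ) * (ρ:ℂ) ^ 2).re = B' * ρ ^ 2 := by
      rw [← ofReal_pow, ← ofReal_mul, ofReal_re]
    rw [e1, e2]
    simp
  have hAan : ∀ z, AnalyticAt ℂ A z := by
    intro z
    rw [hA]
    fun_prop
  have key := (hv.mono (subset_univ (ball (0:ℂ) ρ))).le_dirichlet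
    (hv.usc.mono (subset_univ _)) (u := fun z => (A z).re)
    (fun z _ => ((Complex.continuous_re.continuousAt).comp
      (hAan z).continuousAt).continuousWithinAt) (harm_re fun z _ => hAan z) ?_ 0
    (mem_closedBall_self hρ0.le)
  · rw [hAre] at key
    simp only [zero_re, zero_im, mul_zero] at key
    have h3 : D / (2 * ρ) * (ρ ^ 2 - ((0:ℝ) ^ 2 - 0 ^ 2)) = D * ρ / 2 := by
      field_simp
      ring
    rw [h3] at key
    have h4 : B' * ρ ^ 2 ≤ B' * r * ρ := by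
      have := mul_le_mul_of_nonneg_left hρr (mul_nonneg hB' hρ0.le)
      nlinarith
    have h5 : D < -(2 * B' * r) := by rw [hD]; linarith
    have h6 : D * ρ < -(2 * B' * r) * ρ := mul_lt_mul_of_pos_right h5 hρ0
    nlinarith
  · intro z hz
    rw [mem_sphere_zero_iff_norm] at hz
    beta_reduce
    rw [hAre]
    refine (hall z (by rw [hz]; exact hρr)).trans ?_
    rw [hz]
    have h3 : z.re ^ 2 + z.im ^ 2 = ρ ^ 2 := by
      rw [← hz, ← Complex.normSq_eq_norm_sq, Complex.normSq_apply]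
      ring
    have h4 : |z.im| ≤ ρ := by rw [← hz]; exact Complex.abs_im_le_norm z
    have h5 : z.im ^ 2 / ρ ≤ |z.im| := by
      rw [div_le_iff₀ hρ0, ← sq_abs]
      nlinarith [abs_nonneg z.im]
    have h6 : D * |z.im| ≤ D * (z.im ^ 2 / ρ) := mul_le_mul_of_nonpos_left h5 hD0.le
    have h7 : D / (2 * ρ) * (ρ ^ 2 - (z.re ^ 2 - z.im ^ 2)) = D * (z.im ^ 2 / ρ) := by
      rw [← h3]
      field_simp
      ring
    rw [h7]
    have h8 : 2 * κ / Real.pi * (|z.im| * Real.log ρ) + 2 * B' * r * |z.im| = D * |z.im| := by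
      rw [hD]; ring
    linarith

end Pool.Agent.MP_ae5b4e_an_A2
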