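import Pool.Agent.Lib.MP_ae5b4e_an_A2.Cnt

/-!
# MP_ae5b4e_an, STEP A, block A2: slopes and rates at a contact point
-/

set_option autoImplicit false

noncomputable section

namespace Pool.Agent.MP_ae5b4e_an_A2

open Complex Set Filter Topology Metric InnerProductSpace
open Pool.Agent.Lib.MP_ae5b4e_an_LL (SubH)

/-- second order Taylor formula at a point -/
theorem taylor2 {f : ℂ → ℂ} {g : ℂ} (hf : AnalyticAt ℂ f g) :
    ∃ K > 0, ∃ r > 0, ∀ z : ℂ, ‖z‖ < r → ‖f (g + z) - f g - deriv f g * z‖ ≤ K * ‖z‖ ^ 2 := by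
  obtain ⟨p, hp⟩ := hf
  have h1 := hp.isBigO_sub_partialSum_pow 2
  obtain ⟨K, hK⟩ := h1.bound
  rw [Metric.eventually_nhds_iff] at hK
  obtain ⟨r, hr, hK⟩ := hK
  refine ⟨|K| + 1, by positivity, r, hr, fun z hz => ?_⟩
  have h2 := hK (y := z) (by simpa using hz)
  have h3 : p.partialSum 2 z = f g + deriv f g * z := by
    rw [FormalMultilinearSeries.partialSum, Finset.sum_range_succ, Finset.sum_range_succ,
      Finset.sum_range_zero, zero_add, hp.deriv]
    congr 1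
    · rw [hp.coeff_zero]
    · rw [FormalMultilinearSeries.apply_eq_pow_smul_coeff, FormalMultilinearSeries.apply_eq_pow_smul_coeff]
      simp [mul_comm]
  rw [h3] at h2
  have h4 : f (g + z) - f g - deriv f g * z = f (g + z) - (f g + deriv f g * z) := by ring
  rw [h4]
  refine h2.trans ?_
  rw [norm_pow, norm_norm]
  apply mul_le_mul_of_nonneg_right _ (by positivity)
  exact (le_abs_self K).trans (by linarith)

/-- the slope of a touching harmonic minorant -/
theorem slope_im {v : ℂ → ℝ} {C B r g p : ℝ} (hr : 0 < r) (hc : Contact v C B r g p) {T : ℂ → ℂ}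
    (hT : AnalyticAt ℂ T g) (h0 : (T g).im = -v g) (hle : ∀ᶠ γ in 𝓝 (g:ℂ), -(T γ).im ≤ v γ) :
    (deriv T g).im = -p := by
  have hd : HasDerivAt T (deriv T g) ((g:ℂ) + ((0:ℝ):ℂ)) := by
    simpa using hT.differentiableAt.hasDerivAt
  have h1 : HasDerivAt (fun x : ℝ => (g:ℂ) + x) 1 0 := by
    have := (Complex.ofRealCLM.hasDerivAt (x := (0:ℝ))).const_add (g:ℂ)
    simpa using this
  have h2 : HasDerivAt (fun x : ℝ => T ((g:ℂ) + x)) (deriv T g) 0 := by
    have := hd.scomp (0:ℝ) h1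
    simpa [Function.comp_def] using this
  have h3 : HasDerivAt (fun x : ℝ => (T ((g:ℂ) + x)).im) (deriv T g).im 0 :=
    Complex.imCLM.hasFDerivAt.comp_hasDerivAt (0:ℝ) h2
  have h4 : HasDerivAt (fun x : ℝ => -(T ((g:ℂ) + x)).im - p * x - B * x ^ 2)
      (-(deriv T g).im - p) 0 := by
    have := (h3.neg.sub ((hasDerivAt_id (0:ℝ)).const_mul p)).sub
      (((hasDerivAt_id (0:ℝ)).pow 2).const_mul B)
    refine (this.congr_deriv ?_).congr_of_eventuallyEq ?_
    · simp
    · filter_upwards with x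
      simp
  have h5 : IsLocalMax (fun x : ℝ => -(T ((g:ℂ) + x)).im - p * x - B * x ^ 2) 0 := by
    have e1 : Tendsto (fun x : ℝ => (g:ℂ) + x) (𝓝 0) (𝓝 (g:ℂ)) := by
      have := h1.continuousAt.tendsto
      simpa using this
    have e2 : ∀ᶠ x : ℝ in 𝓝 0, |x| < r := by
      have := Metric.ball_mem_nhds (0:ℝ) hr
      filter_upwards [this] with x hx
      simpa using hx
    filter_upwards [e1.eventually hle, e2] with x hx1 hx2
    have h6 := hc.2 (x:ℂ) (by simpa using hx2.le)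
    simp only [ofReal_re, ofReal_im, abs_zero, mul_zero, add_zero, Complex.norm_real,
      Real.norm_eq_abs, sq_abs] at h6
    simp only [ofReal_zero, add_zero, mul_zero, sub_zero, ne_eq, OfNat.ofNat_ne_zero,
      not_false_eq_true, zero_pow]
    rw [h0]
    linarith
  have h7 := h5.hasDerivAt_eq_zero h4
  linarith

theorem slope_re {v : ℂ → ℝ} {C B r g p : ℝ} (hr : 0 < r) (hc : Contact v C B r g p) {T : ℂ → ℂ}
    (hT : AnalyticAt ℂ T g) (h0 : (T g).im = -v g) (hle : ∀ᶠ γ in 𝓝 (g:ℂ), -(T γ).im ≤ v γ) :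
    |(deriv T g).re| ≤ C := by
  have hd : HasDerivAt T (deriv T g) ((g:ℂ) + ((0:ℝ):ℂ) * I) := by
    simpa using hT.differentiableAt.hasDerivAt
  have h1 : HasDerivAt (fun x : ℝ => (g:ℂ) + x * I) I 0 := by
    have := ((Complex.ofRealCLM.hasDerivAt (x := (0:ℝ))).mul_const I).const_add (g:ℂ)
    simpa using this
  have h2 : HasDerivAt (fun x : ℝ => T ((g:ℂ) + x * I)) (I * deriv T g) 0 := by
    have := hd.scomp (0:ℝ) h1
    simpa [Function.comp_def] using this
  have h3 : HasDerivAt (fun x : ℝ => -(T ((g:ℂ) + x * I)).im) (-(deriv T g).re) 0 := by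
    have := (Complex.imCLM.hasFDerivAt.comp_hasDerivAt (0:ℝ) h2).neg
    refine this.congr_deriv ?_
    simp
  have h4 := h3.tendsto_slope
  have e1 : Tendsto (fun x : ℝ => (g:ℂ) + x * I) (𝓝 0) (𝓝 (g:ℂ)) := by
    have := h1.continuousAt.tendsto
    simpa using this
  have e2 : ∀ᶠ x : ℝ in 𝓝 0, |x| < r := by
    have := Metric.ball_mem_nhds (0:ℝ) hr
    filter_upwards [this] with x hx
    simpa using hx
  have e3 : ∀ᶠ x : ℝ in 𝓝 0, -(T ((g:ℂ) + x * I)).im ≤ v g + C * |x| + B * x ^ 2 := by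
    filter_upwards [e1.eventually hle, e2] with x hx1 hx2
    have h6 := hc.2 (x * I) (by simpa using hx2.le)
    simp only [mul_re, ofReal_re, I_re, mul_zero, ofReal_im, I_im, mul_one, sub_self, add_zero,
      mul_im, norm_mul, Complex.norm_real, Real.norm_eq_abs, Complex.norm_I, sq_abs] at h6
    linarith
  have hB : Tendsto (fun x : ℝ => C + B * |x|) (𝓝 0) (𝓝 C) := by
    have : Continuous fun x : ℝ => C + B * |x| := by fun_prop
    have := this.tendsto 0
    simpa using this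
  rw [abs_le]
  constructor
  · -- from the right
    have h5 : Tendsto (slope (fun x : ℝ => -(T ((g:ℂ) + x * I)).im) 0) (𝓝[>] 0)
        (𝓝 (-(deriv T g).re)) := h4.mono_left (nhdsGT_le_nhdsNE 0)
    have h6 : -(deriv T g).re ≤ C := by
      refine le_of_tendsto_of_tendsto h5 (hB.mono_left nhdsWithin_le_nhds) ?_
      filter_upwards [e3.filter_mono nhdsWithin_le_nhds, self_mem_nhdsWithin] with x hx1 hx2
      have hx : 0 < x := hx2
      rw [slope_def_field]
      simp only [ofReal_zero, zero_mul, add_zero, sub_zero]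
      rw [div_le_iff₀ hx, h0]
      rw [abs_of_pos hx] at hx1 ⊢
      nlinarith
    linarith
  · have h5 : Tendsto (slope (fun x : ℝ => -(T ((g:ℂ) + x * I)).im) 0) (𝓝[<] 0)
        (𝓝 (-(deriv T g).re)) := h4.mono_left (nhdsLT_le_nhdsNE 0)
    have h6 : -C ≤ -(deriv T g).re := by
      refine le_of_tendsto_of_tendsto ((hB.mono_left nhdsWithin_le_nhds).neg) h5 ?_
      filter_upwards [e3.filter_mono nhdsWithin_le_nhds, self_mem_nhdsWithin] with x hx1 hx2
      have hx : x < 0 := hx2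
      rw [slope_def_field]
      simp only [ofReal_zero, zero_mul, add_zero, sub_zero]
      rw [le_div_iff_of_neg hx, h0]
      rw [abs_of_neg hx] at hx1 ⊢
      nlinarith
    linarith

/-- `S = T - γ T'` at a touching tip: `Im S = g p - v g`, `|Re S - Re T| ≤ C g` -/
theorem slope_S {v : ℂ → ℝ} {C B r g p : ℝ} (hr : 0 < r) (hg : 0 < g) (hc : Contact v C B r g p)
    {T : ℂ → ℂ} (hT : AnalyticAt ℂ T g) (h0 : (T g).im = -v g)
    (hle : ∀ᶠ γ in 𝓝 (g:ℂ), -(T γ).im ≤ v γ) :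
    (T g - g * deriv T g).im = g * p - v g ∧ |(T g - g * deriv T g).re - (T g).re| ≤ C * g := by
  have h1 := slope_im hr hc hT h0 hle
  have h2 := slope_re hr hc hT h0 hle
  constructor
  · rw [sub_im, Complex.im_ofReal_mul, h0, h1]
    ring
  · rw [sub_re, Complex.re_ofReal_mul]
    have h3 : (T g).re - g * (deriv T g).re - (T g).re = -(g * (deriv T g).re) := by ring
    rw [h3, abs_neg, abs_mul, abs_of_pos hg]
    nlinarith

/-- the rate of a touching tip: `R γ = - Im (T γ / γ)` -/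
theorem rate_tip {v : ℂ → ℝ} {C B r g p : ℝ} (hr : 0 < r) (hg : 0 < g) (hc : Contact v C B r g p)
    {T : ℂ → ℂ} (hT : AnalyticAt ℂ T g) (h0 : (T g).im = -v g)
    (hle : ∀ᶠ γ in 𝓝 (g:ℂ), -(T γ).im ≤ v γ) :
    ∃ K > 0, ∃ ρ > 0, ∀ z : ℂ, ‖z‖ < ρ →
      |-(T (g + z) / (g + z)).im - (v g / g + ((g * p - v g) * z.re +
        (T g - g * deriv T g).re * z.im) / g ^ 2)| ≤ K * ‖z‖ ^ 2 := by
  have hg0 : (g:ℂ) ≠ 0 := by exact_mod_cast hg.ne'
  obtain ⟨hS1, hS2⟩ := slope_S hr hg hc hT h0 hle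
  have hf : AnalyticAt ℂ (fun γ : ℂ => T γ / γ) g := hT.div analyticAt_id hg0
  obtain ⟨K, hK, ρ, hρ, h1⟩ := taylor2 hf
  have hd : deriv (fun γ : ℂ => T γ / γ) g = -(T g - g * deriv T g) / (g:ℂ) ^ 2 := by
    have := hT.differentiableAt.hasDerivAt.div (hasDerivAt_id (g:ℂ)) hg0
    have h3 : HasDerivAt (fun γ : ℂ => T γ / γ) _ (g:ℂ) := this
    rw [h3.deriv]
    simp only [id]
    ring
  refine ⟨K, hK, ρ, hρ, fun z hz => ?_⟩
  have h2 := h1 z hz
  rw [hd] at h2
  have h3 := (Complex.abs_im_le_norm _).trans h2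
  have h4 : (T (g + z) / (g + z) - T g / g - -(T g - g * deriv T g) / (g:ℂ) ^ 2 * z).im =
      (T (g + z) / (g + z)).im + v g / g + ((g * p - v g) * z.re +
        (T g - g * deriv T g).re * z.im) / g ^ 2 := by
    have e1 : (T g / g).im = -v g / g := by
      rw [Complex.div_ofReal_im, h0]
    have e2 : (-(T g - g * deriv T g) / (g:ℂ) ^ 2 * z).im =
        -(((g * p - v g) * z.re + (T g - g * deriv T g).re * z.im) / g ^ 2) := by
      have e3 : -(T g - g * deriv T g) / (g:ℂ) ^ 2 * z =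
          (-((T g - g * deriv T g) * z)) / ((g ^ 2 : ℝ) : ℂ) := by
        push_cast; ring
      rw [e3, Complex.div_ofReal_im, neg_im, mul_im, hS1]
      ring
    rw [sub_im, sub_im, e1, e2]
    ring
  rw [h4] at h3
  have h5 : -(T (g + z) / (g + z)).im - (v g / g + ((g * p - v g) * z.re +
        (T g - g * deriv T g).re * z.im) / g ^ 2) =
      -((T (g + z) / (g + z)).im + v g / g + ((g * p - v g) * z.re +
        (T g - g * deriv T g).re * z.im) / g ^ 2) := by ring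
  rw [h5, abs_neg]
  exact h3

/-- the rate of the label above the place `x` -/
theorem rate_top {v : ℂ → ℝ} {C B r g p X : ℝ} (hr : 0 < r) (hg : 0 < g) (hX : 0 ≤ X)
    (hc : Contact v C B r g p) (hC : 0 ≤ C) (hB : 0 ≤ B) :
    ∃ K > 0, ∃ ρ > 0, ∀ x : ℝ, |x| ≤ X → ∀ z : ℂ, ‖z‖ < ρ →
      (v (g + z) + x / g * z.im) / (g + z.re) ≤ v g / g + ((g * p - v g) * z.re + x * z.im +
        C * g * |z.im|) / g ^ 2 + K * ‖z‖ ^ 2 := by
  obtain ⟨W, hW⟩ : ∃ W : ℝ, W = |p| + C + B + X / g := ⟨_, rfl⟩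
  have hW0 : 0 ≤ W := by rw [hW]; positivity
  refine ⟨B / g + W / g ^ 2 + 2 * (|v g| + W) / g ^ 3 + 1, by positivity, min (min r (g / 2)) 1,
    by positivity, fun x hx z hz => ?_⟩
  have hzr : ‖z‖ < r := hz.trans_le ((min_le_left _ _).trans (min_le_left _ _))
  have hzg : ‖z‖ < g / 2 := hz.trans_le ((min_le_left _ _).trans (min_le_right _ _))
  have hz1 : ‖z‖ < 1 := hz.trans_le (min_le_right _ _)
  have hre := Complex.abs_re_le_norm z
  have him := Complex.abs_im_le_norm z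
  have hn := norm_nonneg z
  have hd : g / 2 ≤ g + z.re := by
    have := (abs_le.1 hre).1
    linarith
  have hd0 : 0 < g + z.re := by linarith
  have h1 := hc.2 z hzr.le
  obtain ⟨E, hE⟩ : ∃ E : ℝ, E = p * z.re + C * |z.im| + B * ‖z‖ ^ 2 + x / g * z.im := ⟨_, rfl⟩
  have hEb : |E| ≤ W * ‖z‖ := by
    rw [hE]
    have a1 : |p * z.re| ≤ |p| * ‖z‖ := by
      rw [abs_mul]; exact mul_le_mul_of_nonneg_left hre (abs_nonneg _)
    have a2 : |C * (|z.im|)| ≤ C * ‖z‖ := by
      rw [abs_mul, abs_of_nonneg hC, abs_abs]; exact mul_le_mul_of_nonneg_left him hC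
    have a3 : |B * ‖z‖ ^ 2| ≤ B * ‖z‖ := by
      rw [abs_mul, abs_of_nonneg hB, abs_of_nonneg (by positivity)]
      apply mul_le_mul_of_nonneg_left _ hB
      nlinarith
    have a4 : |x / g * z.im| ≤ X / g * ‖z‖ := by
      rw [abs_mul, abs_div, abs_of_pos hg]
      apply mul_le_mul _ him (abs_nonneg _) (by positivity)
      exact div_le_div_of_nonneg_right hx hg.le
    have a5 := abs_add_le (p * z.re + C * |z.im| + B * ‖z‖ ^ 2) (x / g * z.im)
    have a6 := abs_add_le (p * z.re + C * |z.im|) (B * ‖z‖ ^ 2)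
    have a7 := abs_add_le (p * z.re) (C * |z.im|)
    rw [hW]
    nlinarith
  have h2 : (v (g + z) + x / g * z.im) / (g + z.re) ≤ (v g + E) / (g + z.re) := by
    apply div_le_div_of_nonneg_right _ hd0.le
    rw [hE]; linarith
  refine h2.trans ?_
  have h3 : (v g + E) / (g + z.re) = (v g + E) / g - (v g + E) * z.re / g ^ 2 +
      (v g + E) * z.re ^ 2 / (g ^ 2 * (g + z.re)) := by
    field_simp
    ring
  rw [h3]
  have h4 : (v g + E) * z.re ^ 2 / (g ^ 2 * (g + z.re)) ≤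
      2 * (|v g| + W) / g ^ 3 * ‖z‖ ^ 2 := by
    have b1 : v g + E ≤ |v g| + W := by
      have := le_abs_self (v g)
      have := (le_abs_self E).trans hEb
      nlinarith
    have b2 : z.re ^ 2 ≤ ‖z‖ ^ 2 := by
      rw [← sq_abs z.re]; exact pow_le_pow_left₀ (abs_nonneg _) hre 2
    have b3 : (v g + E) * z.re ^ 2 ≤ (|v g| + W) * ‖z‖ ^ 2 := by
      have c1 : (v g + E) * z.re ^ 2 ≤ (|v g| + W) * z.re ^ 2 :=
        mul_le_mul_of_nonneg_right b1 (sq_nonneg _)
      have c2 : (|v g| + W) * z.re ^ 2 ≤ (|v g| + W) * ‖z‖ ^ 2 :=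
        mul_le_mul_of_nonneg_left b2 (by positivity)
      linarith
    have b4 : g ^ 3 / 2 ≤ g ^ 2 * (g + z.re) := by
      have : g ^ 2 * (g / 2) ≤ g ^ 2 * (g + z.re) := mul_le_mul_of_nonneg_left hd (by positivity)
      nlinarith
    have b5 : (v g + E) * z.re ^ 2 / (g ^ 2 * (g + z.re)) ≤
        (|v g| + W) * ‖z‖ ^ 2 / (g ^ 2 * (g + z.re)) :=
      div_le_div_of_nonneg_right b3 (by positivity)
    have b6 : (|v g| + W) * ‖z‖ ^ 2 / (g ^ 2 * (g + z.re)) ≤
        (|v g| + W) * ‖z‖ ^ 2 / (g ^ 3 / 2) :=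
      div_le_div_of_nonneg_left (by positivity) (by positivity) b4
    have b7 : (|v g| + W) * ‖z‖ ^ 2 / (g ^ 3 / 2) = 2 * (|v g| + W) / g ^ 3 * ‖z‖ ^ 2 := by
      field_simp
    linarith
  have h5 : -(E * z.re / g ^ 2) ≤ W / g ^ 2 * ‖z‖ ^ 2 := by
    have c1 : |E * z.re| ≤ W * ‖z‖ * ‖z‖ := by
      rw [abs_mul]
      exact mul_le_mul hEb hre (abs_nonneg _) (by positivity)
    have c2 := (abs_le.1 c1).1
    have c3 : -(E * z.re / g ^ 2) = -(E * z.re) / g ^ 2 := by ring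
    have c4 : W / g ^ 2 * ‖z‖ ^ 2 = (W * ‖z‖ * ‖z‖) / g ^ 2 := by ring
    rw [c3, c4]
    exact div_le_div_of_nonneg_right (by linarith) (by positivity)
  have h6 : (v g + E) / g - (v g + E) * z.re / g ^ 2 = v g / g + ((g * p - v g) * z.re + x * z.im +
        C * g * |z.im|) / g ^ 2 + B / g * ‖z‖ ^ 2 + -(E * z.re / g ^ 2) := by
    rw [hE]
    field_simp
    ring
  rw [h6]
  have h7 := sq_nonneg ‖z‖
  linarith

end Pool.Agent.MP_ae5b4e_an_A2
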